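import Pool.Agent.Helper849.TA.Basic

set_option autoImplicit false

namespace Pool.Agent.Helper849.TA

open Pool.Agent.H356R3.FM MvPolynomial

/-- The multiplicative map `x ↦ x♯` from the tilt `ℂ_p^♭` to `ℂ_p`: on the ring of integers it is
Mathlib's `PreTilt.untilt`, and `(a / s)♯ = a♯ / s♯`. -/
noncomputable def sharp (p : ℕ) [Fact p.Prime] (x : Kf p) : PadicComplex p :=
  ((PreTilt.untilt (IsLocalization.sec (nonZeroDivisors (Flat p)) x).1 : OC p) : PadicComplex p) /
  ((PreTilt.untilt ((IsLocalization.sec (nonZeroDivisors (Flat p)) x).2 : Flat p) : OC p) :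
    PadicComplex p)

variable (p : ℕ) [hp : Fact p.Prime]

/-- the untilt, valued in `ℂ_p` -/
noncomputable def us (a : Flat p) : PadicComplex p := ((PreTilt.untilt a : OC p) : PadicComplex p)

theorem norm_us (a : Flat p) : ‖us p a‖ = nf p a := rfl

theorem us_mul (a b : Flat p) : us p (a * b) = us p a * us p b := by
  unfold us; rw [map_mul, coe_mul_OC]

theorem us_pow (a : Flat p) (n : ℕ) : us p (a ^ n) = us p a ^ n := by
  unfold us; rw [map_pow, coe_pow_OC]

theorem us_one : us p 1 = 1 := by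
  unfold us; rw [map_one, coe_one_OC]

theorem us_ne_zero {a : Flat p} (h : a ≠ 0) : us p a ≠ 0 := by
  intro h0
  have := nf_ne_zero p h
  rw [← norm_us, h0, norm_zero] at this
  exact lt_irrefl _ this

theorem sharp_eq (x : Kf p) (a s : Flat p) (hs : s ≠ 0)
    (h : x * algebraMap (Flat p) (Kf p) s = algebraMap (Flat p) (Kf p) a) :
    sharp p x = us p a / us p s := by
  have h1 := IsLocalization.sec_spec (nonZeroDivisors (Flat p)) x
  set a' := (IsLocalization.sec (nonZeroDivisors (Flat p)) x).1 with ha'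
  set s' := ((IsLocalization.sec (nonZeroDivisors (Flat p)) x).2 : Flat p) with hs'
  have hs'0 : s' ≠ 0 := nonZeroDivisors.ne_zero (IsLocalization.sec (nonZeroDivisors (Flat p)) x).2.2
  have h2 : a' * s = a * s' := by
    apply IsFractionRing.injective (Flat p) (Kf p)
    rw [map_mul, map_mul, ← h1, ← h]
    ring
  have h3 : us p a' * us p s = us p a * us p s' := by
    rw [← us_mul, ← us_mul, h2]
  show us p a' / us p s' = us p a / us p s
  rw [div_eq_div_iff (us_ne_zero p hs'0) (us_ne_zero p hs)]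
  exact h3

theorem sharp_algebraMap (a : Flat p) : sharp p (algebraMap (Flat p) (Kf p) a) = us p a := by
  rw [sharp_eq p _ a 1 one_ne_zero (by rw [map_one, mul_one]), us_one, div_one]

theorem exists_frac (x : Kf p) : ∃ a s : Flat p, s ≠ 0 ∧
    x * algebraMap (Flat p) (Kf p) s = algebraMap (Flat p) (Kf p) a :=
  ⟨_, _, nonZeroDivisors.ne_zero (IsLocalization.sec (nonZeroDivisors (Flat p)) x).2.2,
    IsLocalization.sec_spec (nonZeroDivisors (Flat p)) x⟩

theorem sharp_mul (x y : Kf p) : sharp p (x * y) = sharp p x * sharp p y := by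
  obtain ⟨a, s, hs, h⟩ := exists_frac p x
  obtain ⟨b, t, ht, h'⟩ := exists_frac p y
  rw [sharp_eq p x a s hs h, sharp_eq p y b t ht h', sharp_eq p (x * y) (a * b) (s * t)
    (mul_ne_zero hs ht), us_mul, us_mul, mul_div_mul_comm]
  rw [map_mul, map_mul, ← h, ← h']
  ring

theorem sharp_ne_zero {x : Kf p} (h : x ≠ 0) : sharp p x ≠ 0 := by
  obtain ⟨a, s, hs, h1⟩ := exists_frac p x
  rw [sharp_eq p x a s hs h1]
  apply div_ne_zero _ (us_ne_zero p hs)
  apply us_ne_zero
  intro ha
  rw [ha, map_zero] at h1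
  rcases mul_eq_zero.mp h1 with h2 | h2
  · exact h h2
  · exact hs ((map_eq_zero_iff _ (IsFractionRing.injective (Flat p) (Kf p))).mp h2)

/-- an element of given root norm -/
theorem exists_root_norm (e : ℕ) (he : 0 < e) (b : Flat p) : ∃ v : Flat p, nf p v ^ e = nf p b := by
  obtain ⟨z, hz⟩ := IsAlgClosed.exists_pow_nat_eq (us p b) he
  have hz1 : ‖z‖ ≤ 1 := by
    have h1 : ‖z‖ ^ e ≤ 1 := by rw [← norm_pow, hz]; exact nf_le_one p b
    exact (pow_le_one_iff_of_nonneg (norm_nonneg _) he.ne').mp h1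
  obtain ⟨v, hv⟩ := exists_untilt p (⟨z, (mem_OC p z).mpr hz1⟩ : OC p)
  refine ⟨v, ?_⟩
  have h2 : nf p v = ‖z‖ := by unfold nf; rw [hv]
  rw [h2, ← norm_pow, hz]
  rfl

/-- normalisation of a point of a weighted projective space over the tilt, integral case -/
theorem normalise_int {ι κ : Type} [Fintype ι] [Fintype κ] (e : ℕ) (he : 0 < e)
    (a : ι → Flat p) (b : κ → Flat p) (h : (∃ i, a i ≠ 0) ∨ ∃ k, b k ≠ 0) :
    ∃ (v : Flat p) (a' : ι → Flat p) (b' : κ → Flat p), v ≠ 0 ∧ (∀ i, a i = v * a' i) ∧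
      (∀ k, b k = v ^ e * b' k) ∧ ((∃ i, nf p (a' i) = 1) ∨ ∃ k, nf p (b' k) = 1) := by
  classical
  -- the maximum of the norms, as functions on `Option`
  have key : ∀ (v : Flat p), v ≠ 0 → (∀ i, nf p (a i) ≤ nf p v) → (∀ k, nf p (b k) ≤ nf p v ^ e) →
      ((∃ i, nf p (a i) = nf p v) ∨ ∃ k, nf p (b k) = nf p v ^ e) →
      ∃ (v : Flat p) (a' : ι → Flat p) (b' : κ → Flat p), v ≠ 0 ∧ (∀ i, a i = v * a' i) ∧
      (∀ k, b k = v ^ e * b' k) ∧ ((∃ i, nf p (a' i) = 1) ∨ ∃ k, nf p (b' k) = 1) := by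
    intro v hv ha hb hm
    have h1 : ∀ i, v ∣ a i := fun i => dvd_of_nf_le p _ _ (ha i)
    have h2 : ∀ k, v ^ e ∣ b k := fun k => dvd_of_nf_le p _ _ (by rw [nf_pow]; exact hb k)
    choose a' ha' using h1
    choose b' hb' using h2
    refine ⟨v, a', b', hv, ha', hb', ?_⟩
    have hv0 := nf_ne_zero p hv
    rcases hm with ⟨i, hi⟩ | ⟨k, hk⟩
    · left
      refine ⟨i, ?_⟩
      rw [ha' i, nf_mul] at hi
      exact (mul_eq_left₀ hv0.ne').mp hi
    · right
      refine ⟨k, ?_⟩
      rw [hb' k, nf_mul, nf_pow] at hk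
      exact (mul_eq_left₀ (pow_ne_zero _ hv0.ne')).mp hk
  by_cases hι : Nonempty ι
  · by_cases hκ : Nonempty κ
    · obtain ⟨i0, hi0⟩ := Finite.exists_max (fun i => nf p (a i))
      obtain ⟨k0, hk0⟩ := Finite.exists_max (fun k => nf p (b k))
      rcases le_total (nf p (b k0)) (nf p (a i0) ^ e) with hle | hle
      · have hne : a i0 ≠ 0 := by
          intro h0
          rw [h0, nf_zero, zero_pow he.ne'] at hle
          rcases h with ⟨i, hi⟩ | ⟨k, hk⟩
          · have := hi0 i
            rw [h0, nf_zero] at this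
            exact absurd (nf_ne_zero p hi) (not_lt.mpr this)
          · exact absurd (nf_ne_zero p hk) (not_lt.mpr ((hk0 k).trans hle))
        exact key (a i0) hne hi0 (fun k => (hk0 k).trans hle) (Or.inl ⟨i0, rfl⟩)
      · obtain ⟨v, hv⟩ := exists_root_norm p e he (b k0)
        have hne : b k0 ≠ 0 := by
          intro h0
          rw [h0, nf_zero] at hle
          rcases h with ⟨i, hi⟩ | ⟨k, hk⟩
          · have h3 := (nf_ne_zero p hi).trans_le (hi0 i)
            exact absurd (pow_pos h3 e) (not_lt.mpr hle)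
          · have := hk0 k
            rw [h0, nf_zero] at this
            exact absurd (nf_ne_zero p hk) (not_lt.mpr this)
        have hv0 : v ≠ 0 := by
          rintro rfl
          rw [nf_zero, zero_pow he.ne'] at hv
          exact absurd (nf_ne_zero p hne) (by rw [← hv]; exact lt_irrefl _)
        refine key v hv0 (fun i => ?_) (fun k => by rw [hv]; exact hk0 k) (Or.inr ⟨k0, by rw [hv]⟩)
        have h3 : nf p (a i) ^ e ≤ nf p v ^ e := by
          rw [hv]
          exact (pow_le_pow_left₀ (nf_nonneg p _) (hi0 i) e).trans hle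
        exact le_of_pow_le_pow_left₀ he.ne' (nf_nonneg p _) h3
    · obtain ⟨i0, hi0⟩ := Finite.exists_max (fun i => nf p (a i))
      have hne : a i0 ≠ 0 := by
        intro h0
        rcases h with ⟨i, hi⟩ | ⟨k, hk⟩
        · have := hi0 i
          rw [h0, nf_zero] at this
          exact absurd (nf_ne_zero p hi) (not_lt.mpr this)
        · exact hκ ⟨k⟩
      exact key (a i0) hne hi0 (fun k => (hκ ⟨k⟩).elim) (Or.inl ⟨i0, rfl⟩)
  · have hκ : Nonempty κ := by
      rcases h with ⟨i, _⟩ | ⟨k, _⟩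
      · exact (hι ⟨i⟩).elim
      · exact ⟨k⟩
    obtain ⟨k0, hk0⟩ := Finite.exists_max (fun k => nf p (b k))
    obtain ⟨v, hv⟩ := exists_root_norm p e he (b k0)
    have hne : b k0 ≠ 0 := by
      intro h0
      rcases h with ⟨i, hi⟩ | ⟨k, hk⟩
      · exact hι ⟨i⟩
      · have := hk0 k
        rw [h0, nf_zero] at this
        exact absurd (nf_ne_zero p hk) (not_lt.mpr this)
    have hv0 : v ≠ 0 := by
      rintro rfl
      rw [nf_zero, zero_pow he.ne'] at hv
      exact absurd (nf_ne_zero p hne) (by rw [← hv]; exact lt_irrefl _)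
    exact key v hv0 (fun i => (hι ⟨i⟩).elim) (fun k => by rw [hv]; exact hk0 k)
      (Or.inr ⟨k0, by rw [hv]⟩)

/-- normalisation of a point of a weighted projective space over the tilt -/
theorem normalise {ι κ : Type} [Fintype ι] [Fintype κ] (e : ℕ) (he : 0 < e)
    (x : ι → Kf p) (y : κ → Kf p) (h : (∃ i, x i ≠ 0) ∨ ∃ k, y k ≠ 0) :
    ∃ (l : Kf p) (a : ι → Flat p) (b : κ → Flat p), l ≠ 0 ∧
      (∀ i, algebraMap (Flat p) (Kf p) (a i) = l * x i) ∧
      (∀ k, algebraMap (Flat p) (Kf p) (b k) = l ^ e * y k) ∧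
      ((∃ i, nf p (a i) = 1) ∨ ∃ k, nf p (b k) = 1) := by
  classical
  have hinj := IsFractionRing.injective (Flat p) (Kf p)
  obtain ⟨s, hs⟩ := IsLocalization.exist_integer_multiples_of_finite (nonZeroDivisors (Flat p))
    (Sum.elim x y : ι ⊕ κ → Kf p)
  have hs0 : (s : Flat p) ≠ 0 := nonZeroDivisors.ne_zero s.2
  have h1 : ∀ i, ∃ a : Flat p, algebraMap (Flat p) (Kf p) a = algebraMap _ _ (s : Flat p) * x i := by
    intro i
    obtain ⟨a, ha⟩ := hs (Sum.inl i)
    exact ⟨a, by rw [ha, Algebra.smul_def]; rfl⟩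
  have h2 : ∀ k, ∃ b : Flat p, algebraMap (Flat p) (Kf p) b = algebraMap _ _ (s : Flat p) * y k := by
    intro k
    obtain ⟨b, hb⟩ := hs (Sum.inr k)
    exact ⟨b, by rw [hb, Algebra.smul_def]; rfl⟩
  choose a ha using h1
  choose b hb using h2
  have hb' : ∀ k, algebraMap (Flat p) (Kf p) ((s : Flat p) ^ (e - 1) * b k) =
      (algebraMap _ _ (s : Flat p)) ^ e * y k := by
    intro k
    rw [map_mul, map_pow, hb, ← mul_assoc, ← pow_succ]
    congr 2
    omega
  have hsK : algebraMap (Flat p) (Kf p) (s : Flat p) ≠ 0 :=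
    fun h0 => hs0 ((map_eq_zero_iff _ hinj).mp h0)
  have h' : (∃ i, a i ≠ 0) ∨ ∃ k, (s : Flat p) ^ (e - 1) * b k ≠ 0 := by
    rcases h with ⟨i, hi⟩ | ⟨k, hk⟩
    · left
      refine ⟨i, fun h0 => ?_⟩
      have := ha i
      rw [h0, map_zero] at this
      exact mul_ne_zero hsK hi this.symm
    · right
      refine ⟨k, fun h0 => ?_⟩
      have := hb' k
      rw [h0, map_zero] at this
      exact mul_ne_zero (pow_ne_zero _ hsK) hk this.symm
  obtain ⟨v, a', b', hv, hva, hvb, hn⟩ := normalise_int p e he a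
    (fun k => (s : Flat p) ^ (e - 1) * b k) h'
  have hvK : algebraMap (Flat p) (Kf p) v ≠ 0 :=
    fun h0 => hv ((map_eq_zero_iff _ hinj).mp h0)
  refine ⟨(algebraMap _ _ (s : Flat p)) / algebraMap (Flat p) (Kf p) v, a', b',
    div_ne_zero hsK hvK, fun i => ?_, fun k => ?_, hn⟩
  · have h3 := ha i
    rw [hva i, map_mul] at h3
    field_simp
    rw [mul_comm, h3]
  · have h3 := hb' k
    rw [hvb k, map_mul, map_pow] at h3
    rw [div_pow]
    field_simp
    rw [mul_comm, h3]

/-- weighted scaling -/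
theorem eval_weighted {A σ : Type} [CommRing A] [Fintype σ] (w : σ → ℕ) (m : ℕ)
    (G : MvPolynomial σ A) (hG : IsWeightedHomogeneous w G m) (l : A) (x : σ → A) :
    eval (fun i => l ^ (w i) * x i) G = l ^ m * eval x G := by
  rw [eval_eq', eval_eq', Finset.mul_sum]
  apply Finset.sum_congr rfl
  intro d hd
  have hdm : ∑ i, w i * d i = m := by
    have h1 := hG (mem_support_iff.mp hd)
    rw [← h1, Finsupp.weight_apply, Finsupp.sum_fintype]
    · exact Finset.sum_congr rfl (fun i _ => by rw [smul_eq_mul, mul_comm])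
    · intro i; simp
  have h5 : ∏ i, (l ^ w i * x i) ^ d i = l ^ m * ∏ i, x i ^ d i := by
    rw [← hdm, ← Finset.prod_pow_eq_pow_sum, ← Finset.prod_mul_distrib]
    exact Finset.prod_congr rfl (fun i _ => by rw [mul_pow, ← pow_mul])
  rw [h5]
  ring

end Pool.Agent.Helper849.TA
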