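import Mathlib
import Pool.Agent.Helper849.TA.Sharp

set_option autoImplicit false

/-!
Project TILTAPPROX (MP_db3ab1_ag), third round: descent to a perfectoid subfield `K` of `ℂ_p`.
-/

namespace Pool.Agent.Helper849.TA

open MvPolynomial Pool.Agent.H356R3.FM

/-- `K` is a perfectoid subfield of `ℂ_p`: it is closed, its value group is not discrete, and the
Frobenius is surjective on its ring of integers modulo `p`. -/
structure IsPerfectoidSubfield (p : ℕ) [Fact p.Prime] (K : Subfield (PadicComplex p)) : Prop where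
  closed : IsClosed (K : Set (PadicComplex p))
  nondiscrete : ∃ x ∈ K, (p : ℝ)⁻¹ < ‖x‖ ∧ ‖x‖ < 1
  frob : ∀ x ∈ K, ‖x‖ ≤ 1 → ∃ y ∈ K, ‖x - y ^ p‖ ≤ (p : ℝ)⁻¹

/-- The ring of integers of `K`. -/
noncomputable def intK (p : ℕ) [Fact p.Prime] (K : Subfield (PadicComplex p)) : Subring (OC p) :=
  K.toSubring.comap (algebraMap (OC p) (PadicComplex p))

/-- The tilt `lim (O_K / p)` of the ring of integers of `K`, inside that of `ℂ_p`. -/
noncomputable def flatK (p : ℕ) [Fact p.Prime] (K : Subfield (PadicComplex p)) :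
    Subring (Flat p) :=
  ⨅ n : ℕ, ((intK p K).map (Ideal.Quotient.mk (Ideal.span {(p : OC p)}))).comap (PreTilt.coeff n)

/-- The tilt `K♭` of `K`, a subfield of `ℂ_p♭`. -/
noncomputable def tiltK (p : ℕ) [Fact p.Prime] (K : Subfield (PadicComplex p)) : Subfield (Kf p) :=
  Subfield.closure ((algebraMap (Flat p) (Kf p)) '' (flatK p K : Set (Flat p)))

/-- TASK K1: expansion of integers of a perfectoid field as finite sums of untilts. -/
def TaskK1 : Prop := ∀ (p : ℕ) [Fact p.Prime] (K : Subfield (PadicComplex p))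
  (_ : IsPerfectoidSubfield p K) (c : PadicComplex p) (_ : c ∈ K) (_ : ‖c‖ ≤ 1) (N : ℕ),
  ∃ (L : ℕ) (a : Fin L → Flat p), (∀ l, a l ∈ flatK p K) ∧ (∀ l, nf p (a l) ≤ ‖c‖) ∧
    ‖c - ∑ l, us p (a l)‖ ≤ ((p : ℝ)⁻¹) ^ N

/-- TASK CLOSEDK: `TaskClosed` for polynomials over a subfield `k` of `F`. -/
def TaskClosedK : Prop := ∀ (k F : Type) [Field k] [Field F] [Algebra k F] [IsAlgClosed F]
  (M n s e : ℕ) (_ : 0 < e)
  (g : Fin s → MvPolynomial (Fin M ⊕ Fin n) k) (d : Fin s → ℕ)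
  (_ : ∀ i, IsWeightedHomogeneous (Sum.elim (fun _ => 1) (fun _ => e) : Fin M ⊕ Fin n → ℕ)
    (g i) (d i))
  (_ : ∀ x : Fin M → F, (∀ i, aeval (Sum.elim x (fun _ => 0)) (g i) = 0) → x = 0),
  ∃ S : Set (MvPolynomial (Fin n) k), (∀ f ∈ S, ∃ m : ℕ, f.IsHomogeneous m) ∧
    ∀ u : Fin n → F, (∀ f ∈ S, aeval u f = 0) ↔
      ∃ x : Fin M → F, ∀ i, aeval (Sum.elim x u) (g i) = 0

/-- TASK ELIMK: `TaskElim` for polynomials over a subfield `k` of `F`. -/
def TaskElimK : Prop := ∀ (k F : Type) [Field k] [Field F] [Algebra k F] [IsAlgClosed F]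
  (σ : Type) [Fintype σ] (w : σ → ℕ)
  (m : ℕ) (v : Fin (m + 1) → ℕ) (ι : Type) [Fintype ι]
  (r : ι → MvPolynomial (σ ⊕ Fin (m + 1)) k) (a b : ι → ℕ)
  (_ : ∀ j, IsWeightedHomogeneous (Sum.elim w v) (r j) (a j))
  (_ : ∀ j, IsWeightedHomogeneous (Sum.elim (fun _ => 0) (fun _ => 1) : σ ⊕ Fin (m + 1) → ℕ)
    (r j) (b j)),
  ∃ S : Set (MvPolynomial σ k), (∀ h ∈ S, ∃ l : ℕ, IsWeightedHomogeneous w h l) ∧
    ∀ z : σ → F, (∀ h ∈ S, aeval z h = 0) ↔
      ∃ y : Fin (m + 1) → F, y ≠ 0 ∧ ∀ j, aeval (Sum.elim z y) (r j) = 0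

end Pool.Agent.Helper849.TA
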