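import Mathlib

set_option autoImplicit false

/-!
Project TILTAPPROX (MP_db3ab1_ag), second round: task statements for projective bundles.
The variables are `z` (index type `σ`, weights `w > 0`) and `y` (index type `Fin (m + 1)`); there
are two gradings: in the first one `z_i` has weight `w i` and `y_i` has weight `v i`, in the second
one `z_i` has weight `0` and `y_i` has weight `1`.
-/

namespace Pool.Agent.Helper849.TA

open MvPolynomial

/-- TASK P2: existence of common zeros in a projective bundle over a weighted projective space. -/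
def TaskP2 : Prop := ∀ (F : Type) [Field F] [IsAlgClosed F] (σ : Type) [Fintype σ] (w : σ → ℕ)
  (_ : ∀ i, 0 < w i) (m : ℕ) (v : Fin (m + 1) → ℕ) (ι₁ ι₂ : Type) [Fintype ι₁] [Fintype ι₂]
  (_ : Fintype.card ι₁ < Fintype.card σ)
  (_ : Fintype.card ι₁ + Fintype.card ι₂ < Fintype.card σ + m)
  (g : ι₁ → MvPolynomial σ F) (d : ι₁ → ℕ) (_ : ∀ i, 0 < d i)
  (_ : ∀ i, IsWeightedHomogeneous w (g i) (d i))
  (r : ι₂ → MvPolynomial (σ ⊕ Fin (m + 1)) F) (a b : ι₂ → ℕ) (_ : ∀ j, 0 < b j)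
  (_ : ∀ j i, b j * v i < a j)
  (_ : ∀ j, IsWeightedHomogeneous (Sum.elim w v) (r j) (a j))
  (_ : ∀ j, IsWeightedHomogeneous (Sum.elim (fun _ => 0) (fun _ => 1) : σ ⊕ Fin (m + 1) → ℕ)
    (r j) (b j)),
  ∃ (z : σ → F) (y : Fin (m + 1) → F), z ≠ 0 ∧ y ≠ 0 ∧ (∀ i, eval z (g i) = 0) ∧
    ∀ j, eval (Sum.elim z y) (r j) = 0

/-- TASK ELIM: main theorem of elimination theory, with weights. -/
def TaskElim : Prop := ∀ (F : Type) [Field F] [IsAlgClosed F] (σ : Type) [Fintype σ] (w : σ → ℕ)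
  (m : ℕ) (v : Fin (m + 1) → ℕ) (ι : Type) [Fintype ι]
  (r : ι → MvPolynomial (σ ⊕ Fin (m + 1)) F) (a b : ι → ℕ)
  (_ : ∀ j, IsWeightedHomogeneous (Sum.elim w v) (r j) (a j))
  (_ : ∀ j, IsWeightedHomogeneous (Sum.elim (fun _ => 0) (fun _ => 1) : σ ⊕ Fin (m + 1) → ℕ)
    (r j) (b j)),
  ∃ S : Set (MvPolynomial σ F), (∀ h ∈ S, ∃ k : ℕ, IsWeightedHomogeneous w h k) ∧
    ∀ z : σ → F, (∀ h ∈ S, eval z h = 0) ↔
      ∃ y : Fin (m + 1) → F, y ≠ 0 ∧ ∀ j, eval (Sum.elim z y) (r j) = 0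

/-- TASK P2A (part of P2): the case without forms in `z` alone is not needed; this is the
inductive step. `g` is one more form, `r` the previous ones, all with `w = 1`. -/
def TaskP2Step : Prop := ∀ (F : Type) [Field F] [IsAlgClosed F] (N m : ℕ)
  (v : Fin (m + 1) → ℕ) (s : ℕ) (_ : s < N + m)
  (r : Fin s → MvPolynomial (Fin (N + 1) ⊕ Fin (m + 1)) F) (a b : Fin s → ℕ)
  (_ : ∀ j, IsWeightedHomogeneous (Sum.elim (fun _ => 1) v) (r j) (a j))
  (_ : ∀ j, IsWeightedHomogeneous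
    (Sum.elim (fun _ => 0) (fun _ => 1) : Fin (N + 1) ⊕ Fin (m + 1) → ℕ) (r j) (b j))
  (z₀ : Fin (N + 1) → F) (y₀ : Fin (m + 1) → F) (_ : z₀ ≠ 0) (_ : y₀ ≠ 0)
  (_ : ∀ j, eval (Sum.elim z₀ y₀) (r j) = 0)
  (g : MvPolynomial (Fin (N + 1) ⊕ Fin (m + 1)) F) (a' b' : ℕ) (_ : 0 < b')
  (_ : ∀ i, b' * v i < a')
  (_ : IsWeightedHomogeneous (Sum.elim (fun _ => 1) v) g a')
  (_ : IsWeightedHomogeneous
    (Sum.elim (fun _ => 0) (fun _ => 1) : Fin (N + 1) ⊕ Fin (m + 1) → ℕ) g b'),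
  ∃ (z : Fin (N + 1) → F) (y : Fin (m + 1) → F), z ≠ 0 ∧ y ≠ 0 ∧
    (∀ j, eval (Sum.elim z y) (r j) = 0) ∧ eval (Sum.elim z y) g = 0

end Pool.Agent.Helper849.TA
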