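import Mathlib
import Pool.Agent.H356R3.FM.BdR2

set_option autoImplicit false

/-!
Project TILTAPPROX (MP_db3ab1_ag): definitions and task statements.
`OC p` is the ring of integers of `ℂ_p`, `Flat p = PreTilt (OC p) p` its tilt.
-/

namespace Pool.Agent.Helper849.TA

open Pool.Agent.H356R3.FM MvPolynomial

/-- The tilt `ℂ_p^♭`, the fraction field of the tilt of the ring of integers of `ℂ_p`. -/
abbrev Kf (p : ℕ) [Fact p.Prime] : Type := FractionRing (Flat p)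

/-- The absolute value on the ring of integers of the tilt. -/
noncomputable def nf (p : ℕ) [Fact p.Prime] (a : Flat p) : ℝ :=
  ‖((PreTilt.untilt a : OC p) : PadicComplex p)‖

/-- TASK AC: the tilt of `ℂ_p` is algebraically closed. -/
def TaskAC : Prop := ∀ (p : ℕ) [Fact p.Prime], IsAlgClosed (Kf p)

/-- TASK P: fewer weighted forms than variables have a nontrivial common zero. -/
def TaskP : Prop := ∀ (F : Type) [Field F] [IsAlgClosed F] (σ : Type) [Fintype σ] (w : σ → ℕ)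
  (_ : ∀ i, 0 < w i) (s : ℕ) (_ : s < Fintype.card σ) (g : Fin s → MvPolynomial σ F)
  (d : Fin s → ℕ) (_ : ∀ i, 0 < d i) (_ : ∀ i, IsWeightedHomogeneous w (g i) (d i)),
  ∃ x : σ → F, x ≠ 0 ∧ ∀ i, eval x (g i) = 0

/-- TASK CLOSED: the image under projection to the `u` variables of a weighted cone which meets
`u = 0` only at the origin is a closed cone. -/
def TaskClosed : Prop := ∀ (F : Type) [Field F] [IsAlgClosed F] (M n s e : ℕ) (_ : 0 < e)
  (g : Fin s → MvPolynomial (Fin M ⊕ Fin n) F) (d : Fin s → ℕ)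
  (_ : ∀ i, IsWeightedHomogeneous (Sum.elim (fun _ => 1) (fun _ => e) : Fin M ⊕ Fin n → ℕ)
    (g i) (d i))
  (_ : ∀ x : Fin M → F, (∀ i, eval (Sum.elim x (fun _ => 0)) (g i) = 0) → x = 0),
  ∃ S : Set (MvPolynomial (Fin n) F), (∀ f ∈ S, ∃ m : ℕ, f.IsHomogeneous m) ∧
    ∀ u : Fin n → F, (∀ f ∈ S, eval u f = 0) ↔
      ∃ x : Fin M → F, ∀ i, eval (Sum.elim x u) (g i) = 0

/-- TASK WITT: the components of a sum of Teichmueller representatives are homogeneous. -/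
def TaskWitt : Prop := ∀ (p : ℕ) [Fact p.Prime] (J : Type) [Fintype J] (i : ℕ),
  ∃ P : MvPolynomial J ℤ, P.IsHomogeneous (p ^ i) ∧
    ∀ (A : Type) [CommRing A] (a : J → A),
      (∑ j, WittVector.teichmuller p (a j)).coeff i = aeval a P

/-- TASK W: approximation of the zero set of a sum. -/
def TaskW : Prop := ∀ (p : ℕ) [Fact p.Prime] (J : Type) [Fintype J] (N : ℕ),
  ∃ (E : ℕ) (G : MvPolynomial J (Flat p)), G.IsHomogeneous (p ^ E) ∧
    ∀ a : J → Flat p, eval a G = 0 → ∀ R : ℝ, 0 ≤ R → (∀ j, nf p (a j) ≤ R) →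
      ‖((∑ j, PreTilt.untilt (a j) : OC p) : PadicComplex p)‖ ≤ ((p : ℝ)⁻¹) ^ N * R

/-- TASK NS: quantitative Nullstellensatz over `ℂ_p`. -/
def TaskNS : Prop := ∀ (p : ℕ) [Fact p.Prime] (M s : ℕ)
  (P : Fin s → MvPolynomial (Fin M) (PadicComplex p)) (Q : MvPolynomial (Fin M) (PadicComplex p))
  (_ : ∀ x : Fin M → PadicComplex p, (∀ i, eval x (P i) = 0) → eval x Q = 0) (η : ℝ) (_ : 0 < η),
  ∃ δ : ℝ, 0 < δ ∧ ∀ x : Fin M → PadicComplex p, (∀ i, ‖x i‖ ≤ 1) → (∀ i, ‖eval x (P i)‖ ≤ δ) →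
    ‖eval x Q‖ ≤ η

/-- TASK LIP: polynomials are Lipschitz on the unit polydisc. -/
def TaskLip : Prop := ∀ (p : ℕ) [Fact p.Prime] (M : ℕ) (Q : MvPolynomial (Fin M) (PadicComplex p)),
  ∃ C : ℝ, 0 < C ∧ ∀ (x y : Fin M → PadicComplex p) (δ : ℝ), (∀ i, ‖x i‖ ≤ 1) → (∀ i, ‖y i‖ ≤ 1) →
    (∀ i, ‖x i - y i‖ ≤ δ) → ‖eval x Q - eval y Q‖ ≤ C * δ

/-- TASK SUBST: substituting weighted forms of the same degree in a form. -/
def TaskSubst : Prop := ∀ (A : Type) [CommRing A] (σ J : Type) [Fintype J] (w : σ → ℕ) (d m : ℕ)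
  (G : MvPolynomial J A) (_ : G.IsHomogeneous m) (t : J → MvPolynomial σ A)
  (_ : ∀ j, IsWeightedHomogeneous w (t j) d),
  IsWeightedHomogeneous w (bind₁ t G) (d * m)

end Pool.Agent.Helper849.TA
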