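import Pool.Agent.Helper849.TA.W2
import Pool.Agent.Helper849.TA.Sharp
import Pool.Agent.H269R3.TAWitt
import Pool.Agent.Helper51.TA.NS
import Pool.Agent.H293R3.TA.Subst

set_option autoImplicit false

namespace Pool.Agent.Helper849.TA

open Pool.Agent.H356R3.FM MvPolynomial

variable (p : ℕ) [hp : Fact p.Prime]

theorem eval_bind₁' {A σ J : Type} [CommRing A] (a : σ → A) (t : J → MvPolynomial σ A)
    (G : MvPolynomial J A) : eval a (bind₁ t G) = eval (fun j => eval a (t j)) G := by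
  induction G using MvPolynomial.induction_on with
  | C r => simp
  | add f g hf hg => rw [map_add, map_add, map_add, hf, hg]
  | mul_X f i hf => rw [map_mul, map_mul, map_mul, hf, bind₁_X_right, eval_X]

/-- Zero sets of weighted forms over `ℂ_p` are approximated by zero sets of weighted forms over
the tilt. -/
theorem approx {σ : Type} [Fintype σ] (w : σ → ℕ) (d : ℕ) (P : MvPolynomial σ (PadicComplex p))
    (hP : IsWeightedHomogeneous w P d) (δ : ℝ) (hδ : 0 < δ) :
    ∃ (E : ℕ) (G : MvPolynomial σ (Flat p)), IsWeightedHomogeneous w G (d * p ^ E) ∧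
      ∀ a : σ → Flat p, eval a G = 0 → ‖eval (fun i => us p (a i)) P‖ ≤ δ := by
  classical
  have hr0 : (0 : ℝ) < (p : ℝ)⁻¹ := by
    have : (0 : ℝ) < p := by exact_mod_cast hp.out.pos
    positivity
  have hr1 : (p : ℝ)⁻¹ < 1 := inv_lt_one_of_one_lt₀ (by exact_mod_cast hp.out.one_lt)
  -- scale to integral coefficients
  obtain ⟨m, hm⟩ : ∃ m : ℕ, ∀ α ∈ P.support, ‖(p : PadicComplex p) ^ m * coeff α P‖ ≤ 1 := by
    have hC : 0 < 1 + ∑ α ∈ P.support, ‖coeff α P‖ := by positivity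
    obtain ⟨m, hm⟩ := exists_pow_lt_of_lt_one (inv_pos.mpr hC) hr1
    refine ⟨m, fun α hα => ?_⟩
    rw [norm_mul, norm_pow, norm_pC]
    have h1 : ‖coeff α P‖ ≤ 1 + ∑ α ∈ P.support, ‖coeff α P‖ := by
      have := Finset.single_le_sum (f := fun α => ‖coeff α P‖) (fun i _ => norm_nonneg _) hα
      linarith
    calc ((p : ℝ)⁻¹) ^ m * ‖coeff α P‖ ≤ (1 + ∑ α ∈ P.support, ‖coeff α P‖)⁻¹ *
          (1 + ∑ α ∈ P.support, ‖coeff α P‖) :=
          mul_le_mul hm.le h1 (norm_nonneg _) (inv_pos.mpr hC).le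
      _ = 1 := inv_mul_cancel₀ hC.ne'
  have hch : ∀ α : P.support, ∃ c : Flat p, us p c = (p : PadicComplex p) ^ m * coeff α.1 P := by
    intro α
    obtain ⟨c, hc⟩ := exists_untilt p (⟨(p : PadicComplex p) ^ m * coeff α.1 P,
      (mem_OC p _).mpr (hm α.1 α.2)⟩ : OC p)
    refine ⟨c, ?_⟩
    unfold us
    rw [hc]
  choose c hc using hch
  obtain ⟨N, hN⟩ := exists_pow_lt_of_lt_one (mul_pos hδ (pow_pos hr0 m)) hr1
  obtain ⟨E, G0, hG0, hG0a⟩ := taskW taskWitt p P.support N
  refine ⟨E, bind₁ (fun α : P.support => monomial α.1 (c α)) G0, ?_, ?_⟩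
  · refine Pool.Agent.H293R3.TA.taskSubst (Flat p) σ P.support w d (p ^ E) G0 hG0 _ (fun α => ?_)
    exact isWeightedHomogeneous_monomial w α.1 (c α) (hP (mem_support_iff.mp α.2))
  · intro a ha
    rw [eval_bind₁'] at ha
    have h1 := hG0a _ ha 1 zero_le_one (fun j => nf_le_one p _)
    have h2 : ((∑ α : P.support, PreTilt.untilt (eval a (monomial α.1 (c α))) : OC p) :
        PadicComplex p) = (p : PadicComplex p) ^ m * eval (fun i => us p (a i)) P := by
      rw [eval_eq', Finset.mul_sum]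
      have h3 : ∀ s : Finset P.support,
          ((∑ α ∈ s, PreTilt.untilt (eval a (monomial α.1 (c α))) : OC p) : PadicComplex p) =
          ∑ α ∈ s, us p (eval a (monomial α.1 (c α))) := by
        intro s
        induction s using Finset.induction_on with
        | empty => rw [Finset.sum_empty, Finset.sum_empty, coe_zero_OC]
        | insert i s hi ih => rw [Finset.sum_insert hi, Finset.sum_insert hi, coe_add_OC, ih]; rfl
      rw [h3]
      rw [← Finset.sum_coe_sort P.support]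
      apply Finset.sum_congr rfl
      intro α _
      rw [eval_monomial, us_mul, hc, mul_assoc, Finsupp.prod_fintype]
      · congr 2
        have h4 : ∀ s : Finset σ, us p (∏ i ∈ s, a i ^ α.1 i) = ∏ i ∈ s, us p (a i) ^ α.1 i := by
          intro s
          induction s using Finset.induction_on with
          | empty => rw [Finset.prod_empty, Finset.prod_empty, us_one]
          | insert i s hi ih => rw [Finset.prod_insert hi, Finset.prod_insert hi, us_mul, us_pow, ih]
        exact h4 Finset.univ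
      · intro i; rw [pow_zero]
    rw [h2, norm_mul, norm_pow, norm_pC, mul_one] at h1
    have h5 : ((p : ℝ)⁻¹) ^ m * ‖eval (fun i => us p (a i)) P‖ ≤ ((p : ℝ)⁻¹) ^ m * δ := by
      refine h1.trans (hN.le.trans (le_of_eq ?_))
      ring
    exact le_of_mul_le_mul_left h5 (pow_pos hr0 m)

theorem exists_pos_le {κ : Type} [Fintype κ] (δ : κ → ℝ) (h : ∀ k, 0 < δ k) :
    ∃ δ0 : ℝ, 0 < δ0 ∧ ∀ k, δ0 ≤ δ k := by
  by_cases hκ : Nonempty κ
  · obtain ⟨k0, hk0⟩ := Finite.exists_min δ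
    exact ⟨δ k0, h k0, hk0⟩
  · exact ⟨1, one_pos, fun k => (hκ ⟨k⟩).elim⟩

/-- quantitative Nullstellensatz for families -/
theorem NSfam {ι κ : Type} [Fintype ι] [Fintype κ] (M : ℕ)
    (P : ι → MvPolynomial (Fin M) (PadicComplex p)) (Q : κ → MvPolynomial (Fin M) (PadicComplex p))
    (h : ∀ x : Fin M → PadicComplex p, (∀ i, eval x (P i) = 0) → ∀ k, eval x (Q k) = 0)
    (η : κ → ℝ) (hη : ∀ k, 0 < η k) :
    ∃ δ : ℝ, 0 < δ ∧ ∀ x : Fin M → PadicComplex p, (∀ i, ‖x i‖ ≤ 1) →
      (∀ i, ‖eval x (P i)‖ ≤ δ) → ∀ k, ‖eval x (Q k)‖ ≤ η k := by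
  let e := Fintype.equivFin ι
  have h1 : ∀ k, ∃ δ : ℝ, 0 < δ ∧ ∀ x : Fin M → PadicComplex p, (∀ i, ‖x i‖ ≤ 1) →
      (∀ i, ‖eval x (P i)‖ ≤ δ) → ‖eval x (Q k)‖ ≤ η k := by
    intro k
    obtain ⟨δ, hδ, H⟩ := taskNS p M (Fintype.card ι) (fun i => P (e.symm i)) (Q k)
      (fun x hx => h x (fun i => by have := hx (e i); rwa [e.symm_apply_apply] at this) k)
      (η k) (hη k)
    exact ⟨δ, hδ, fun x hx hx' => H x hx (fun i => hx' _)⟩
  choose δ hδ H using h1
  obtain ⟨δ0, hδ0, hle⟩ := exists_pos_le δ hδ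
  exact ⟨δ0, hδ0, fun x hx hx' k => H k x hx (fun i => (hx' i).trans (hle k))⟩

theorem Lipfam {κ : Type} [Fintype κ] (M : ℕ)
    (Q : κ → MvPolynomial (Fin M) (PadicComplex p)) :
    ∃ C : ℝ, 0 < C ∧ ∀ (x y : Fin M → PadicComplex p) (δ : ℝ), 0 ≤ δ → (∀ i, ‖x i‖ ≤ 1) →
      (∀ i, ‖y i‖ ≤ 1) → (∀ i, ‖x i - y i‖ ≤ δ) → ∀ k, ‖eval x (Q k) - eval y (Q k)‖ ≤ C * δ := by
  have h1 := fun k => taskLip0 p M (Q k)
  choose C hC H using h1
  refine ⟨1 + ∑ k, C k, by have := Finset.sum_nonneg (fun k (_ : k ∈ Finset.univ) => (hC k).le); linarith, ?_⟩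
  intro x y δ hδ hx hy hxy k
  refine (H k x y δ hδ hx hy hxy).trans ?_
  apply mul_le_mul_of_nonneg_right _ hδ
  have := Finset.single_le_sum (f := C) (fun i _ => (hC i).le) (Finset.mem_univ k)
  linarith

/-- The analytic heart: estimates for approximate solutions. -/
theorem consts (M n' c s t e : ℕ) (he : 0 < e)
    (q : Fin c → MvPolynomial (Fin M) (PadicComplex p))
    (f : Fin n' → MvPolynomial (Fin M) (PadicComplex p)) (hf : ∀ i, (f i).IsHomogeneous e)
    (hbase : ∀ x, (∀ j, eval x (q j) = 0) → (∀ i, eval x (f i) = 0) → x = 0)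
    (X : Set (Fin n' → PadicComplex p)) (hX : X.Nonempty)
    (hfX : ∀ x, x ≠ 0 → (∀ j, eval x (q j) = 0) → (fun i => eval x (f i)) ∈ X)
    (g : Fin s → MvPolynomial (Fin n') (PadicComplex p))
    (hg : ∀ x ∈ X, ∃ l, eval x (g l) ≠ 0)
    (h : Fin t → MvPolynomial (Fin n') (PadicComplex p)) (dh : Fin t → ℕ)
    (hh : ∀ k, (h k).IsHomogeneous (dh k)) (hhX : ∀ k, ∀ x ∈ X, eval x (h k) = 0)
    (ε : ℝ) (hε : 0 < ε) :
    ∃ δ1 : ℝ, 0 < δ1 ∧ ∃ δ2 : ℝ, 0 < δ2 ∧
      ∀ (a : Fin M → PadicComplex p) (b : Fin n' → PadicComplex p), (∀ i, ‖a i‖ ≤ 1) →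
      (∀ k, ‖b k‖ ≤ 1) → ((∃ i, ‖a i‖ = 1) ∨ ∃ k, ‖b k‖ = 1) →
      (∀ k, ‖b k - eval a (f k)‖ ≤ δ2) → (∀ j, ‖eval a (q j)‖ ≤ δ2) →
      (∃ k, δ1 ≤ ‖b k‖) ∧ (∀ l, ‖eval b (h l)‖ ≤ ε * δ1 ^ (dh l)) ∧
        (∃ l, δ2 < ‖eval b (g l)‖) := by
  classical
  have hf0 : ∀ k, eval (0 : Fin M → PadicComplex p) (f k) = 0 := by
    intro k
    have h1 := eval_weighted (fun _ => 1) e (f k) (hf k) (0 : PadicComplex p) (fun _ => 0)
    rw [zero_pow he.ne', zero_mul] at h1
    have h2 : (fun i : Fin M => (0 : PadicComplex p) ^ 1 * 0) = 0 := by funext i; simp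
    rw [← h2]
    exact h1
  have hh0 : ∀ k, eval (0 : Fin n' → PadicComplex p) (h k) = 0 := by
    intro k
    obtain ⟨x0, hx0⟩ := hX
    have h1 := eval_weighted (fun _ => 1) (dh k) (h k) (hh k) (0 : PadicComplex p) x0
    rw [hhX k x0 hx0, mul_zero] at h1
    have h2 : (fun i : Fin n' => (0 : PadicComplex p) ^ 1 * x0 i) = 0 := by funext i; simp
    rw [← h2]
    exact h1
  -- (A)
  obtain ⟨δA, hδA, HA⟩ := NSfam p (ι := Fin c ⊕ Fin n') (κ := Fin M) M
    (Sum.elim q f) (fun k => MvPolynomial.X k)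
    (fun x hx k => by
      have h0 := hbase x (fun j => hx (Sum.inl j)) (fun i => hx (Sum.inr i))
      rw [eval_X, h0]; rfl)
    (fun _ => 1 / 2) (fun _ => by norm_num)
  set δ1 := min δA 1 with hδ1
  have hδ1p : 0 < δ1 := lt_min hδA one_pos
  -- (B)
  obtain ⟨δB, hδB, HB⟩ := NSfam p (ι := Fin c) (κ := Fin t) M q (fun l => bind₁ f (h l))
    (fun x hx k => by
      rw [eval_bind₁']
      by_cases hx0 : x = 0
      · subst hx0
        have h2 : (fun j => eval (0 : Fin M → PadicComplex p) (f j)) = 0 := by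
          funext j; exact hf0 j
        rw [h2]
        exact hh0 k
      · exact hhX k _ (hfX x hx0 hx))
    (fun l => ε * δ1 ^ (dh l)) (fun l => mul_pos hε (pow_pos hδ1p _))
  -- (C)
  obtain ⟨δC, hδC, HC⟩ := NSfam p (ι := Fin c ⊕ Fin s) (κ := Fin M ⊕ Fin n') M
    (Sum.elim q (fun l => bind₁ f (g l))) (Sum.elim (fun k => MvPolynomial.X k) f)
    (fun x hx k => by
      have hx0 : x = 0 := by
        by_contra hne
        obtain ⟨l, hl⟩ := hg _ (hfX x hne (fun j => hx (Sum.inl j)))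
        have h3 := hx (Sum.inr l)
        simp only [Sum.elim_inr] at h3
        rw [eval_bind₁'] at h3
        exact hl h3
      subst hx0
      rcases k with k | k
      · simp
      · exact hf0 k)
    (fun _ => 1 / 2) (fun _ => by norm_num)
  obtain ⟨L, hL, HL⟩ := Lipfam p (κ := Fin t) n' h
  obtain ⟨L', hL', HL'⟩ := Lipfam p (κ := Fin s) n' g
  obtain ⟨δD, hδD, HD⟩ := exists_pos_le (fun l : Fin t => ε * δ1 ^ (dh l) / L)
    (fun l => div_pos (mul_pos hε (pow_pos hδ1p _)) hL)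
  -- δ2
  obtain ⟨δ2, hδ2, e1, e2, e3, e4, e5, e6⟩ : ∃ δ2 : ℝ, 0 < δ2 ∧ δ2 ≤ δ1 ∧ δ2 ≤ δB ∧ δ2 ≤ δD ∧
      δ2 ≤ 1 / 2 ∧ δ2 ≤ δC ∧ L' * δ2 ≤ δC := by
    refine ⟨min (min δ1 δB) (min (min δD (1 / 2)) (min δC (δC / L'))), ?_, ?_, ?_, ?_, ?_, ?_, ?_⟩
    · refine lt_min (lt_min hδ1p hδB) (lt_min (lt_min hδD (by norm_num)) (lt_min hδC (div_pos hδC hL')))
    · exact (min_le_left _ _).trans (min_le_left _ _)
    · exact (min_le_left _ _).trans (min_le_right _ _)
    · exact (min_le_right _ _).trans ((min_le_left _ _).trans (min_le_left _ _))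
    · exact (min_le_right _ _).trans ((min_le_left _ _).trans (min_le_right _ _))
    · exact (min_le_right _ _).trans ((min_le_right _ _).trans (min_le_left _ _))
    · have : min (min δ1 δB) (min (min δD (1 / 2)) (min δC (δC / L'))) ≤ δC / L' :=
        (min_le_right _ _).trans ((min_le_right _ _).trans (min_le_right _ _))
      rw [le_div_iff₀ hL'] at this
      rw [mul_comm]
      exact this
  refine ⟨δ1, hδ1p, δ2, hδ2, ?_⟩
  intro a b ha hb hn hbf hq
  have hfa : ∀ k, ‖eval a (f k)‖ ≤ max ‖b k‖ δ2 := by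
    intro k
    have e : eval a (f k) = b k + -(b k - eval a (f k)) := by ring
    rw [e]
    refine (IsUltrametricDist.norm_add_le_max _ _).trans (max_le_max le_rfl ?_)
    rw [norm_neg]
    exact hbf k
  have hfa1 : ∀ k, ‖eval a (f k)‖ ≤ 1 :=
    fun k => (hfa k).trans (max_le (hb k) (e4.trans (by norm_num)))
  refine ⟨?_, ?_, ?_⟩
  · by_contra hcon
    push Not at hcon
    have hda : ∃ i, ‖a i‖ = 1 := by
      rcases hn with h1 | ⟨k, hk⟩
      · exact h1
      · exfalso
        have := hcon k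
        rw [hk] at this
        exact absurd this (not_lt.mpr (min_le_right _ _))
    obtain ⟨i, hi⟩ := hda
    have h2 := HA a ha (fun j => by
      rcases j with j | j
      · exact (hq j).trans (e1.trans (min_le_left _ _))
      · exact (hfa j).trans (max_le ((hcon j).le.trans (min_le_left _ _))
          (e1.trans (min_le_left _ _)))) i
    rw [eval_X, hi] at h2
    norm_num at h2
  · intro l
    have h1 := HB a ha (fun j => (hq j).trans e2) l
    rw [eval_bind₁'] at h1
    have h2 := HL b (fun k => eval a (f k)) δ2 hδ2.le hb hfa1 hbf l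
    have h3 : L * δ2 ≤ ε * δ1 ^ (dh l) := by
      have := e3.trans (HD l)
      rw [le_div_iff₀ hL] at this
      rw [mul_comm]
      exact this
    have e : eval b (h l) = (eval b (h l) - eval (fun k => eval a (f k)) (h l)) +
        eval (fun k => eval a (f k)) (h l) := by ring
    rw [e]
    exact (IsUltrametricDist.norm_add_le_max _ _).trans (max_le (h2.trans h3) h1)
  · by_contra hcon
    push Not at hcon
    have h1 : ∀ l, ‖eval (fun k => eval a (f k)) (g l)‖ ≤ δC := by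
      intro l
      have h2 := HL' b (fun k => eval a (f k)) δ2 hδ2.le hb hfa1 hbf l
      have e : eval (fun k => eval a (f k)) (g l) = eval b (g l) +
          -(eval b (g l) - eval (fun k => eval a (f k)) (g l)) := by ring
      rw [e]
      refine (IsUltrametricDist.norm_add_le_max _ _).trans (max_le ((hcon l).trans e5) ?_)
      rw [norm_neg]
      exact h2.trans e6
    have h2 := HC a ha (fun j => by
      rcases j with j | j
      · exact (hq j).trans e5
      · simp only [Sum.elim_inr]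
        rw [eval_bind₁']
        exact h1 j)
    rcases hn with ⟨i, hi⟩ | ⟨k, hk⟩
    · have h3 := h2 (Sum.inl i)
      simp only [Sum.elim_inl, eval_X] at h3
      rw [hi] at h3
      norm_num at h3
    · have h3 := h2 (Sum.inr k)
      simp only [Sum.elim_inr] at h3
      have e : b k = (b k - eval a (f k)) + eval a (f k) := by ring
      have h4 : ‖b k‖ ≤ 1 / 2 := by
        rw [e]
        exact (IsUltrametricDist.norm_add_le_max _ _).trans (max_le ((hbf k).trans e4) h3)
      rw [hk] at h4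
      norm_num at h4

end Pool.Agent.Helper849.TA
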