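import Pool.Agent.Helper849.TA.Approx

set_option autoImplicit false

namespace Pool.Agent.Helper849.TA

open Pool.Agent.H356R3.FM MvPolynomial

/-- substitution of weighted forms of matching weights -/
theorem substW {A σ J : Type} [CommRing A] [Fintype J] (w : J → ℕ) (w' : σ → ℕ) (m : ℕ)
    (G : MvPolynomial J A) (hG : IsWeightedHomogeneous w G m) (t : J → MvPolynomial σ A)
    (ht : ∀ j, IsWeightedHomogeneous w' (t j) (w j)) : IsWeightedHomogeneous w' (bind₁ t G) m := by
  classical
  have h1 : bind₁ t G = ∑ d ∈ G.support, C (coeff d G) * ∏ j, t j ^ d j := by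
    show aeval t G = _
    rw [aeval_def, eval₂_eq']
    rfl
  rw [h1]
  refine IsWeightedHomogeneous.sum _ _ _ (fun d hd => ?_)
  have hdm : ∑ i, d i * w i = m := by
    have h2 := hG (mem_support_iff.mp hd)
    rw [← h2, Finsupp.weight_apply, Finsupp.sum_fintype]
    · exact Finset.sum_congr rfl (fun i _ => by rw [smul_eq_mul])
    · intro i; simp
  apply IsWeightedHomogeneous.C_mul
  rw [← hdm]
  refine IsWeightedHomogeneous.prod _ _ _ (fun j _ => ?_)
  have h3 := (ht j).pow (d j)
  rwa [smul_eq_mul] at h3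

variable (p : ℕ) [hp : Fact p.Prime]

/-- Zero sets of polynomials over `ℂ_p` are approximated by zero sets of polynomials over
the tilt, respecting all gradings. -/
theorem approxG {σ : Type} [Fintype σ] (P : MvPolynomial σ (PadicComplex p)) (δ : ℝ)
    (hδ : 0 < δ) :
    ∃ (E : ℕ) (G : MvPolynomial σ (Flat p)),
      (∀ (w : σ → ℕ) (d : ℕ), IsWeightedHomogeneous w P d →
        IsWeightedHomogeneous w G (d * p ^ E)) ∧
      ∀ a : σ → Flat p, eval a G = 0 → ‖eval (fun i => us p (a i)) P‖ ≤ δ := by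
  classical
  have hr0 : (0 : ℝ) < (p : ℝ)⁻¹ := by
    have : (0 : ℝ) < p := by exact_mod_cast hp.out.pos
    positivity
  have hr1 : (p : ℝ)⁻¹ < 1 := inv_lt_one_of_one_lt₀ (by exact_mod_cast hp.out.one_lt)
  -- scale to integral coefficients
  obtain ⟨m, hm⟩ : ∃ m : ℕ, ∀ α ∈ P.support, ‖(p : PadicComplex p) ^ m * coeff α P‖ ≤ 1 := by
    have hC : 0 < 1 + ∑ α ∈ P.support, ‖coeff α P‖ := by positivity
    obtain ⟨m, hm⟩ := exists_pow_lt_of_lt_one (inv_pos.mpr hC) hr1
    refine ⟨m, fun α hα => ?_⟩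
    rw [norm_mul, norm_pow, norm_pC]
    have h1 : ‖coeff α P‖ ≤ 1 + ∑ α ∈ P.support, ‖coeff α P‖ := by
      have := Finset.single_le_sum (f := fun α => ‖coeff α P‖) (fun i _ => norm_nonneg _) hα
      linarith
    calc ((p : ℝ)⁻¹) ^ m * ‖coeff α P‖ ≤ (1 + ∑ α ∈ P.support, ‖coeff α P‖)⁻¹ *
          (1 + ∑ α ∈ P.support, ‖coeff α P‖) :=
          mul_le_mul hm.le h1 (norm_nonneg _) (inv_pos.mpr hC).le
      _ = 1 := inv_mul_cancel₀ hC.ne'
  have hch : ∀ α : P.support, ∃ c : Flat p, us p c = (p : PadicComplex p) ^ m * coeff α.1 P := by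
    intro α
    obtain ⟨c, hc⟩ := exists_untilt p (⟨(p : PadicComplex p) ^ m * coeff α.1 P,
      (mem_OC p _).mpr (hm α.1 α.2)⟩ : OC p)
    refine ⟨c, ?_⟩
    unfold us
    rw [hc]
  choose c hc using hch
  obtain ⟨N, hN⟩ := exists_pow_lt_of_lt_one (mul_pos hδ (pow_pos hr0 m)) hr1
  obtain ⟨E, G0, hG0, hG0a⟩ := taskW taskWitt p P.support N
  refine ⟨E, bind₁ (fun α : P.support => monomial α.1 (c α)) G0, ?_, ?_⟩
  · intro w d hP
    refine Pool.Agent.H293R3.TA.taskSubst (Flat p) σ P.support w d (p ^ E) G0 hG0 _ (fun α => ?_)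
    exact isWeightedHomogeneous_monomial w α.1 (c α) (hP (mem_support_iff.mp α.2))
  · intro a ha
    rw [eval_bind₁'] at ha
    have h1 := hG0a _ ha 1 zero_le_one (fun j => nf_le_one p _)
    have h2 : ((∑ α : P.support, PreTilt.untilt (eval a (monomial α.1 (c α))) : OC p) :
        PadicComplex p) = (p : PadicComplex p) ^ m * eval (fun i => us p (a i)) P := by
      rw [eval_eq', Finset.mul_sum]
      have h3 : ∀ s : Finset P.support,
          ((∑ α ∈ s, PreTilt.untilt (eval a (monomial α.1 (c α))) : OC p) : PadicComplex p) =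
          ∑ α ∈ s, us p (eval a (monomial α.1 (c α))) := by
        intro s
        induction s using Finset.induction_on with
        | empty => rw [Finset.sum_empty, Finset.sum_empty, coe_zero_OC]
        | insert i s hi ih => rw [Finset.sum_insert hi, Finset.sum_insert hi, coe_add_OC, ih]; rfl
      rw [h3]
      rw [← Finset.sum_coe_sort P.support]
      apply Finset.sum_congr rfl
      intro α _
      rw [eval_monomial, us_mul, hc, mul_assoc, Finsupp.prod_fintype]
      · congr 2
        have h4 : ∀ s : Finset σ, us p (∏ i ∈ s, a i ^ α.1 i) = ∏ i ∈ s, us p (a i) ^ α.1 i := by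
          intro s
          induction s using Finset.induction_on with
          | empty => rw [Finset.prod_empty, Finset.prod_empty, us_one]
          | insert i s hi ih => rw [Finset.prod_insert hi, Finset.prod_insert hi, us_mul, us_pow, ih]
        exact h4 Finset.univ
      · intro i; rw [pow_zero]
    rw [h2, norm_mul, norm_pow, norm_pC, mul_one] at h1
    have h5 : ((p : ℝ)⁻¹) ^ m * ‖eval (fun i => us p (a i)) P‖ ≤ ((p : ℝ)⁻¹) ^ m * δ := by
      refine h1.trans (hN.le.trans (le_of_eq ?_))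
      ring
    exact le_of_mul_le_mul_left h5 (pow_pos hr0 m)

/-- quantitative Nullstellensatz for families, arbitrary finite variable type -/
theorem NSfam2 {τ ι κ : Type} [Fintype τ] [Fintype ι] [Fintype κ]
    (P : ι → MvPolynomial τ (PadicComplex p)) (Q : κ → MvPolynomial τ (PadicComplex p))
    (h : ∀ x : τ → PadicComplex p, (∀ i, eval x (P i) = 0) → ∀ k, eval x (Q k) = 0)
    (η : κ → ℝ) (hη : ∀ k, 0 < η k) :
    ∃ δ : ℝ, 0 < δ ∧ ∀ x : τ → PadicComplex p, (∀ i, ‖x i‖ ≤ 1) →
      (∀ i, ‖eval x (P i)‖ ≤ δ) → ∀ k, ‖eval x (Q k)‖ ≤ η k := by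
  let e := Fintype.equivFin τ
  have hren : ∀ (x : Fin (Fintype.card τ) → PadicComplex p) (R : MvPolynomial τ (PadicComplex p)),
      eval x (rename e R) = eval (fun i => x (e i)) R := by
    intro x R
    rw [eval_rename]
    rfl
  obtain ⟨δ, hδ, H⟩ := NSfam p (Fintype.card τ) (fun i => rename e (P i))
    (fun k => rename e (Q k)) (fun x hx k => by
      rw [hren]
      exact h _ (fun i => by rw [← hren]; exact hx i) k) η hη
  refine ⟨δ, hδ, fun x hx hx' k => ?_⟩
  have e1 : x = fun i => (fun j => x (e.symm j)) (e i) := by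
    funext i
    simp
  have h2 := H (fun j => x (e.symm j)) (fun j => hx _) (fun i => by
    rw [hren, ← e1]; exact hx' i) k
  rw [hren, ← e1] at h2
  exact h2

/-- The analytic heart, version with the projective bundle variables `y`. -/
theorem consts2 (M n' m c₁ c₂ s t e : ℕ) (he : 0 < e)
    (q : Fin c₁ → MvPolynomial (Fin M) (PadicComplex p))
    (r : Fin c₂ → MvPolynomial (Fin M ⊕ Fin m) (PadicComplex p))
    (f : Fin n' → MvPolynomial (Fin M) (PadicComplex p)) (hf : ∀ i, (f i).IsHomogeneous e)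
    (hbase : ∀ (x : Fin M → PadicComplex p) (y : Fin m → PadicComplex p),
      (∀ j, eval x (q j) = 0) → (∀ j, eval (Sum.elim x y) (r j) = 0) →
      (∀ i, eval x (f i) = 0) → x = 0 ∨ y = 0)
    (X : Set (Fin n' → PadicComplex p)) (hX : X.Nonempty)
    (hfX : ∀ (x : Fin M → PadicComplex p) (y : Fin m → PadicComplex p), x ≠ 0 → y ≠ 0 →
      (∀ j, eval x (q j) = 0) → (∀ j, eval (Sum.elim x y) (r j) = 0) →
      (fun i => eval x (f i)) ∈ X)
    (g : Fin s → MvPolynomial (Fin n') (PadicComplex p))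
    (hg : ∀ x ∈ X, ∃ l, eval x (g l) ≠ 0)
    (h : Fin t → MvPolynomial (Fin n') (PadicComplex p)) (dh : Fin t → ℕ)
    (hh : ∀ k, (h k).IsHomogeneous (dh k)) (hhX : ∀ k, ∀ x ∈ X, eval x (h k) = 0)
    (ε : ℝ) (hε : 0 < ε) :
    ∃ δ1 : ℝ, 0 < δ1 ∧ ∃ δ2 : ℝ, 0 < δ2 ∧
      ∀ (a : Fin M → PadicComplex p) (b : Fin n' → PadicComplex p) (y : Fin m → PadicComplex p),
      (∀ i, ‖a i‖ ≤ 1) → (∀ k, ‖b k‖ ≤ 1) → (∀ i, ‖y i‖ ≤ 1) →
      ((∃ i, ‖a i‖ = 1) ∨ ∃ k, ‖b k‖ = 1) → (∃ i, ‖y i‖ = 1) →
      (∀ k, ‖b k - eval a (f k)‖ ≤ δ2) → (∀ j, ‖eval a (q j)‖ ≤ δ2) →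
      (∀ j, ‖eval (Sum.elim a y) (r j)‖ ≤ δ2) →
      (∃ k, δ1 ≤ ‖b k‖) ∧ (∀ l, ‖eval b (h l)‖ ≤ ε * δ1 ^ (dh l)) ∧
        (∃ l, δ2 < ‖eval b (g l)‖) := by
  classical
  have hf0 : ∀ k, eval (0 : Fin M → PadicComplex p) (f k) = 0 := by
    intro k
    have h1 := eval_weighted (fun _ => 1) e (f k) (hf k) (0 : PadicComplex p) (fun _ => 0)
    rw [zero_pow he.ne', zero_mul] at h1
    have h2 : (fun i : Fin M => (0 : PadicComplex p) ^ 1 * 0) = 0 := by funext i; simp
    rw [← h2]
    exact h1
  have hh0 : ∀ k, eval (0 : Fin n' → PadicComplex p) (h k) = 0 := by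
    intro k
    obtain ⟨x0, hx0⟩ := hX
    have h1 := eval_weighted (fun _ => 1) (dh k) (h k) (hh k) (0 : PadicComplex p) x0
    rw [hhX k x0 hx0, mul_zero] at h1
    have h2 : (fun i : Fin n' => (0 : PadicComplex p) ^ 1 * x0 i) = 0 := by funext i; simp
    rw [← h2]
    exact h1
  -- polynomials in the variables `x` seen in the variables `x, y`
  let up : MvPolynomial (Fin M) (PadicComplex p) → MvPolynomial (Fin M ⊕ Fin m) (PadicComplex p) :=
    fun F => rename Sum.inl F
  have hup : ∀ (z : Fin M ⊕ Fin m → PadicComplex p) (F : MvPolynomial (Fin M) (PadicComplex p)),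
      eval z (up F) = eval (fun i => z (Sum.inl i)) F := by
    intro z F
    show eval z (rename Sum.inl F) = _
    rw [eval_rename]
    rfl
  have hsplit : ∀ z : Fin M ⊕ Fin m → PadicComplex p,
      z = Sum.elim (fun i => z (Sum.inl i)) (fun i => z (Sum.inr i)) := by
    intro z
    funext i
    rcases i with i | i <;> rfl
  -- (A)
  obtain ⟨δA, hδA, HA⟩ := NSfam2 p (τ := Fin M ⊕ Fin m) (ι := (Fin c₁ ⊕ Fin n') ⊕ Fin c₂)
    (κ := Fin M × Fin m)
    (Sum.elim (Sum.elim (fun j => up (q j)) (fun j => up (f j))) r)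
    (fun k => MvPolynomial.X (Sum.inl k.1) * MvPolynomial.X (Sum.inr k.2))
    (fun z hz k => by
      have h0 := hbase (fun i => z (Sum.inl i)) (fun i => z (Sum.inr i))
        (fun j => by rw [← hup]; exact hz (Sum.inl (Sum.inl j)))
        (fun j => by rw [← hsplit]; exact hz (Sum.inr j))
        (fun i => by rw [← hup]; exact hz (Sum.inl (Sum.inr i)))
      rw [map_mul, eval_X, eval_X]
      rcases h0 with h0 | h0
      · have := congrFun h0 k.1
        simp only [Pi.zero_apply] at this
        rw [this, zero_mul]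
      · have := congrFun h0 k.2
        simp only [Pi.zero_apply] at this
        rw [this, mul_zero])
    (fun _ => 1 / 2) (fun _ => by norm_num)
  set δ1 := min δA 1 with hδ1
  have hδ1p : 0 < δ1 := lt_min hδA one_pos
  -- (B)
  obtain ⟨δB, hδB, HB⟩ := NSfam2 p (τ := Fin M ⊕ Fin m) (ι := Fin c₁ ⊕ Fin c₂)
    (κ := Fin t × Fin m)
    (Sum.elim (fun j => up (q j)) r)
    (fun l => up (bind₁ f (h l.1)) * MvPolynomial.X (Sum.inr l.2))
    (fun z hz k => by
      rw [map_mul, eval_X, hup, eval_bind₁']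
      by_cases hx0 : (fun i => z (Sum.inl i)) = (0 : Fin M → PadicComplex p)
      · rw [hx0]
        have h2 : (fun j => eval (0 : Fin M → PadicComplex p) (f j)) = 0 := by
          funext j; exact hf0 j
        rw [h2, hh0, zero_mul]
      · by_cases hy0 : (fun i => z (Sum.inr i)) = (0 : Fin m → PadicComplex p)
        · have := congrFun hy0 k.2
          simp only [Pi.zero_apply] at this
          rw [this, mul_zero]
        · rw [hhX k.1 _ (hfX _ _ hx0 hy0
            (fun j => by rw [← hup]; exact hz (Sum.inl j))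
            (fun j => by rw [← hsplit]; exact hz (Sum.inr j))), zero_mul])
    (fun l => ε * δ1 ^ (dh l.1)) (fun l => mul_pos hε (pow_pos hδ1p _))
  -- (C)
  obtain ⟨δC, hδC, HC⟩ := NSfam2 p (τ := Fin M ⊕ Fin m) (ι := (Fin c₁ ⊕ Fin s) ⊕ Fin c₂)
    (κ := (Fin M ⊕ Fin n') × Fin m)
    (Sum.elim (Sum.elim (fun j => up (q j)) (fun l => up (bind₁ f (g l)))) r)
    (fun k => up (Sum.elim (fun k => MvPolynomial.X k) f k.1) * MvPolynomial.X (Sum.inr k.2))
    (fun z hz k => by
      rw [map_mul, eval_X, hup]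
      by_cases hy0 : (fun i => z (Sum.inr i)) = (0 : Fin m → PadicComplex p)
      · have := congrFun hy0 k.2
        simp only [Pi.zero_apply] at this
        rw [this, mul_zero]
      · have hx0 : (fun i => z (Sum.inl i)) = (0 : Fin M → PadicComplex p) := by
          by_contra hne
          obtain ⟨l, hl⟩ := hg _ (hfX _ _ hne hy0
            (fun j => by rw [← hup]; exact hz (Sum.inl (Sum.inl j)))
            (fun j => by rw [← hsplit]; exact hz (Sum.inr j)))
          have h3 := hz (Sum.inl (Sum.inr l))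
          simp only [Sum.elim_inr, Sum.elim_inl] at h3
          rw [hup, eval_bind₁'] at h3
          exact hl h3
        rw [hx0]
        rcases k with ⟨k | k, k2⟩
        · simp
        · simp only [Sum.elim_inr]
          rw [hf0 k, zero_mul])
    (fun _ => 1 / 2) (fun _ => by norm_num)
  obtain ⟨L, hL, HL⟩ := Lipfam p (κ := Fin t) n' h
  obtain ⟨L', hL', HL'⟩ := Lipfam p (κ := Fin s) n' g
  obtain ⟨δD, hδD, HD⟩ := exists_pos_le (fun l : Fin t => ε * δ1 ^ (dh l) / L)
    (fun l => div_pos (mul_pos hε (pow_pos hδ1p _)) hL)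
  -- δ2
  obtain ⟨δ2, hδ2, e1, e2, e3, e4, e5, e6⟩ : ∃ δ2 : ℝ, 0 < δ2 ∧ δ2 ≤ δ1 ∧ δ2 ≤ δB ∧ δ2 ≤ δD ∧
      δ2 ≤ 1 / 2 ∧ δ2 ≤ δC ∧ L' * δ2 ≤ δC := by
    refine ⟨min (min δ1 δB) (min (min δD (1 / 2)) (min δC (δC / L'))), ?_, ?_, ?_, ?_, ?_, ?_, ?_⟩
    · refine lt_min (lt_min hδ1p hδB) (lt_min (lt_min hδD (by norm_num)) (lt_min hδC (div_pos hδC hL')))
    · exact (min_le_left _ _).trans (min_le_left _ _)
    · exact (min_le_left _ _).trans (min_le_right _ _)
    · exact (min_le_right _ _).trans ((min_le_left _ _).trans (min_le_left _ _))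
    · exact (min_le_right _ _).trans ((min_le_left _ _).trans (min_le_right _ _))
    · exact (min_le_right _ _).trans ((min_le_right _ _).trans (min_le_left _ _))
    · have : min (min δ1 δB) (min (min δD (1 / 2)) (min δC (δC / L'))) ≤ δC / L' :=
        (min_le_right _ _).trans ((min_le_right _ _).trans (min_le_right _ _))
      rw [le_div_iff₀ hL'] at this
      rw [mul_comm]
      exact this
  refine ⟨δ1, hδ1p, δ2, hδ2, ?_⟩
  intro a b y ha hb hy hn hny hbf hq hr
  obtain ⟨j0, hj0⟩ := hny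
  have hz1 : ∀ i, ‖(Sum.elim a y : Fin M ⊕ Fin m → PadicComplex p) i‖ ≤ 1 := by
    rintro (i | i)
    · exact ha i
    · exact hy i
  have hupa : ∀ F : MvPolynomial (Fin M) (PadicComplex p),
      eval (Sum.elim a y : Fin M ⊕ Fin m → PadicComplex p) (up F) = eval a F := by
    intro F
    rw [hup]
    rfl
  have hfa : ∀ k, ‖eval a (f k)‖ ≤ max ‖b k‖ δ2 := by
    intro k
    have e : eval a (f k) = b k + -(b k - eval a (f k)) := by ring
    rw [e]
    refine (IsUltrametricDist.norm_add_le_max _ _).trans (max_le_max le_rfl ?_)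
    rw [norm_neg]
    exact hbf k
  have hfa1 : ∀ k, ‖eval a (f k)‖ ≤ 1 :=
    fun k => (hfa k).trans (max_le (hb k) (e4.trans (by norm_num)))
  refine ⟨?_, ?_, ?_⟩
  · by_contra hcon
    push Not at hcon
    have hda : ∃ i, ‖a i‖ = 1 := by
      rcases hn with h1 | ⟨k, hk⟩
      · exact h1
      · exfalso
        have := hcon k
        rw [hk] at this
        exact absurd this (not_lt.mpr (min_le_right _ _))
    obtain ⟨i, hi⟩ := hda
    have h2 := HA (Sum.elim a y) hz1 (fun j => by
      rcases j with (j | j) | j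
      · simp only [Sum.elim_inl]
        rw [hupa]
        exact (hq j).trans (e1.trans (min_le_left _ _))
      · simp only [Sum.elim_inl, Sum.elim_inr]
        rw [hupa]
        exact (hfa j).trans (max_le ((hcon j).le.trans (min_le_left _ _))
          (e1.trans (min_le_left _ _)))
      · exact (hr j).trans (e1.trans (min_le_left _ _))) (i, j0)
    rw [map_mul, eval_X, eval_X] at h2
    simp only [Sum.elim_inl, Sum.elim_inr] at h2
    rw [norm_mul, hi, hj0] at h2
    norm_num at h2
  · intro l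
    have h1 := HB (Sum.elim a y) hz1 (fun j => by
      rcases j with j | j
      · simp only [Sum.elim_inl]
        rw [hupa]
        exact (hq j).trans e2
      · exact (hr j).trans e2) (l, j0)
    rw [map_mul, eval_X, hupa, eval_bind₁'] at h1
    simp only [Sum.elim_inr] at h1
    rw [norm_mul, hj0, mul_one] at h1
    have h2 := HL b (fun k => eval a (f k)) δ2 hδ2.le hb hfa1 hbf l
    have h3 : L * δ2 ≤ ε * δ1 ^ (dh l) := by
      have := e3.trans (HD l)
      rw [le_div_iff₀ hL] at this
      rw [mul_comm]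
      exact this
    have e : eval b (h l) = (eval b (h l) - eval (fun k => eval a (f k)) (h l)) +
        eval (fun k => eval a (f k)) (h l) := by ring
    rw [e]
    exact (IsUltrametricDist.norm_add_le_max _ _).trans (max_le (h2.trans h3) h1)
  · by_contra hcon
    push Not at hcon
    have h1 : ∀ l, ‖eval (fun k => eval a (f k)) (g l)‖ ≤ δC := by
      intro l
      have h2 := HL' b (fun k => eval a (f k)) δ2 hδ2.le hb hfa1 hbf l
      have e : eval (fun k => eval a (f k)) (g l) = eval b (g l) +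
          -(eval b (g l) - eval (fun k => eval a (f k)) (g l)) := by ring
      rw [e]
      refine (IsUltrametricDist.norm_add_le_max _ _).trans (max_le ((hcon l).trans e5) ?_)
      rw [norm_neg]
      exact h2.trans e6
    have h2 := HC (Sum.elim a y) hz1 (fun j => by
      rcases j with (j | j) | j
      · simp only [Sum.elim_inl]
        rw [hupa]
        exact (hq j).trans e5
      · simp only [Sum.elim_inr, Sum.elim_inl]
        rw [hupa, eval_bind₁']
        exact h1 j
      · exact (hr j).trans e5)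
    rcases hn with ⟨i, hi⟩ | ⟨k, hk⟩
    · have h3 := h2 (Sum.inl i, j0)
      rw [map_mul, eval_X, hupa] at h3
      simp only [Sum.elim_inl, Sum.elim_inr, eval_X] at h3
      rw [norm_mul, hi, hj0] at h3
      norm_num at h3
    · have h3 := h2 (Sum.inr k, j0)
      rw [map_mul, eval_X, hupa] at h3
      simp only [Sum.elim_inr] at h3
      rw [norm_mul, hj0, mul_one] at h3
      have e : b k = (b k - eval a (f k)) + eval a (f k) := by ring
      have h4 : ‖b k‖ ≤ 1 / 2 := by
        rw [e]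
        exact (IsUltrametricDist.norm_add_le_max _ _).trans (max_le ((hbf k).trans e4) h3)
      rw [hk] at h4
      norm_num at h4

end Pool.Agent.Helper849.TA
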