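import Pool.Agent.Helper849.TA.Stmts

set_option autoImplicit false

namespace Pool.Agent.Helper849.TA

open Pool.Agent.H356R3.FM

variable (p : ℕ) [hp : Fact p.Prime]

theorem coe_mul_OC (x y : OC p) : ((x * y : OC p) : PadicComplex p) = x * y := rfl
theorem coe_pow_OC (x : OC p) (n : ℕ) : ((x ^ n : OC p) : PadicComplex p) = (x : PadicComplex p) ^ n := rfl
theorem coe_add_OC (x y : OC p) : ((x + y : OC p) : PadicComplex p) = x + y := rfl
theorem coe_one_OC : ((1 : OC p) : PadicComplex p) = 1 := rfl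
theorem coe_zero_OC : ((0 : OC p) : PadicComplex p) = 0 := rfl

theorem nf_mul (a b : Flat p) : nf p (a * b) = nf p a * nf p b := by
  unfold nf
  rw [map_mul, coe_mul_OC, norm_mul]

theorem nf_pow (a : Flat p) (n : ℕ) : nf p (a ^ n) = nf p a ^ n := by
  unfold nf
  rw [map_pow, coe_pow_OC, norm_pow]

theorem nf_one : nf p 1 = 1 := by
  unfold nf
  rw [map_one, coe_one_OC, norm_one]

theorem nf_nonneg (a : Flat p) : 0 ≤ nf p a := norm_nonneg _

theorem nf_le_one (a : Flat p) : nf p a ≤ 1 := norm_OC_le p _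

theorem untilt_zero : PreTilt.untilt (0 : Flat p) = (0 : OC p) := by
  obtain ⟨a, ha⟩ := exists_untilt p (0 : OC p)
  have h : PreTilt.untilt (0 * a : Flat p) = PreTilt.untilt (0 : Flat p) * PreTilt.untilt a :=
    map_mul _ _ _
  rw [zero_mul, ha, mul_zero] at h
  exact h

theorem nf_zero : nf p 0 = 0 := by
  unfold nf
  rw [untilt_zero, coe_zero_OC, norm_zero]

theorem OC_coe_inj {x y : OC p} (h : (x : PadicComplex p) = y) : x = y := Subtype.ext h

/-- divisibility in the tilt is measured by the norm -/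
theorem dvd_of_nf_le (a b : Flat p) (h : nf p a ≤ nf p b) : b ∣ a := by
  obtain ⟨α, rfl⟩ := (flatEquiv p).surjective a
  obtain ⟨β, rfl⟩ := (flatEquiv p).surjective b
  unfold nf at h
  rw [flat_untilt, flat_untilt] at h
  have hdiv : ∀ n, ‖((Perfection.coeffMonoidHom (OC p) p n α : OC p) : PadicComplex p)‖ ≤
      ‖((Perfection.coeffMonoidHom (OC p) p n β : OC p) : PadicComplex p)‖ := by
    intro n
    have h1 := norm_coeff_pow p α n
    have h2 := norm_coeff_pow p β n
    rw [← h1, ← h2] at h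
    exact le_of_pow_le_pow_left₀ (pow_pos hp.out.pos n).ne' (norm_nonneg _) h
  by_cases hb0 : ‖((Perfection.coeffMonoidHom (OC p) p 0 β : OC p) : PadicComplex p)‖ = 0
  · -- then both vanish
    have ha0 : ‖((Perfection.coeffMonoidHom (OC p) p 0 α : OC p) : PadicComplex p)‖ = 0 :=
      le_antisymm (by rw [← hb0]; exact h) (norm_nonneg _)
    have hα : ∀ n, Perfection.coeffMonoidHom (OC p) p n α = 0 := by
      intro n
      have h1 := norm_coeff_pow p α n
      rw [ha0] at h1
      have h2 := (pow_eq_zero_iff (pow_pos hp.out.pos n).ne').mp h1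
      exact OC_coe_inj p (by rw [norm_eq_zero.mp h2]; rfl)
    have hα0 : flatEquiv p α = 0 := by
      apply Perfection.ext
      intro n
      show PreTilt.coeff n (flatEquiv p α) = PreTilt.coeff n 0
      rw [flat_coeff, hα n, map_zero, map_zero]
    rw [hα0]
    exact dvd_zero _
  · have hβ0 : ∀ n, Perfection.coeffMonoidHom (OC p) p n β ≠ 0 := by
      intro n h0
      have h2 := norm_coeff_pow p β n
      rw [h0, coe_zero_OC, norm_zero, zero_pow (pow_pos hp.out.pos n).ne'] at h2
      exact hb0 h2.symm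
    have hdiv' : ∀ n, (Perfection.coeffMonoidHom (OC p) p n β) ∣
        (Perfection.coeffMonoidHom (OC p) p n α) := by
      intro n
      rw [OC_dvd]
      exact hdiv n
    choose γ hγ using hdiv'
    have hγp : ∀ n, γ (n + 1) ^ p = γ n := by
      intro n
      have h1 : (Perfection.coeffMonoidHom (OC p) p (n + 1) α) ^ p =
          Perfection.coeffMonoidHom (OC p) p n α := α.2 n
      have h2 : (Perfection.coeffMonoidHom (OC p) p (n + 1) β) ^ p =
          Perfection.coeffMonoidHom (OC p) p n β := β.2 n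
      rw [hγ (n + 1), mul_pow, h2, hγ n] at h1
      exact mul_left_cancel₀ (hβ0 n) h1
    let γ' : Perfection (OC p) p := ⟨γ, hγp⟩
    have hαβ : α = β * γ' := by
      apply Perfection.extMonoid
      intro n
      rw [map_mul]
      exact hγ n
    refine ⟨flatEquiv p γ', ?_⟩
    have h1 := (flatEquiv p).map_mul β γ'
    rw [← hαβ] at h1
    exact h1

theorem nf_le_of_dvd {a b : Flat p} (h : b ∣ a) : nf p a ≤ nf p b := by
  obtain ⟨c, rfl⟩ := h
  rw [nf_mul]
  exact mul_le_of_le_one_right (nf_nonneg p b) (nf_le_one p c)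

theorem nf_add (a b : Flat p) : nf p (a + b) ≤ max (nf p a) (nf p b) := by
  rcases le_total (nf p a) (nf p b) with h | h
  · rw [max_eq_right h]
    exact nf_le_of_dvd p ((dvd_add_left (dvd_refl b)).mpr (dvd_of_nf_le p a b h))
  · rw [max_eq_left h]
    exact nf_le_of_dvd p ((dvd_add_right (dvd_refl a)).mpr (dvd_of_nf_le p b a h))

theorem nf_eq_zero {a : Flat p} (h : nf p a = 0) : a = 0 := by
  have h1 : (0 : Flat p) ∣ a := dvd_of_nf_le p a 0 (by rw [h, nf_zero])
  exact zero_dvd_iff.mp h1

theorem nf_ne_zero {a : Flat p} (h : a ≠ 0) : 0 < nf p a :=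
  lt_of_le_of_ne (nf_nonneg p a) (fun h' => h (nf_eq_zero p h'.symm))

theorem nf_sum_le {ι : Type*} (s : Finset ι) (a : ι → Flat p) (R : ℝ) (hR : 0 ≤ R)
    (h : ∀ i ∈ s, nf p (a i) ≤ R) : nf p (∑ i ∈ s, a i) ≤ R := by
  classical
  induction s using Finset.induction_on with
  | empty => rw [Finset.sum_empty, nf_zero]; exact hR
  | insert i s hi ih =>
    rw [Finset.sum_insert hi]
    refine (nf_add p _ _).trans (max_le (h i (Finset.mem_insert_self i s)) ?_)
    exact ih (fun j hj => h j (Finset.mem_insert_of_mem hj))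

end Pool.Agent.Helper849.TA
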