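import Pool.Agent.Helper849.TA.Approx
import Pool.Agent.H410R3.AC.TaskAC
import Pool.Agent.Helper25R3.TiltP
import Pool.Agent.H830R3.TA.Closed

set_option autoImplicit false

namespace Pool.Agent.Helper849.TA

open Pool.Agent.H356R3.FM MvPolynomial

/-- `Z ⊆ F^{n+1} \ {0}` is the cone (without its vertex) over a Zariski closed subset of `ℙ^n(F)`:
it is the set of nonzero common zeros of a set of homogeneous polynomials. -/
def IsProjClosed {F : Type} [Field F] {n : ℕ} (Z : Set (Fin (n + 1) → F)) : Prop :=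
  ∃ S : Set (MvPolynomial (Fin (n + 1)) F), (∀ g ∈ S, ∃ d : ℕ, g.IsHomogeneous d) ∧
    Z = {x | x ≠ 0 ∧ ∀ g ∈ S, eval x g = 0}

/-- The closed subset `Z` of `ℙ^n(F)` has dimension `D`: any `D` forms of positive degree have a
common zero on `Z`, and some `D + 1` forms of positive degree have none. -/
def HasDim {F : Type} [Field F] {n : ℕ} (Z : Set (Fin (n + 1) → F)) (D : ℕ) : Prop :=
  (∀ (g : Fin D → MvPolynomial (Fin (n + 1)) F) (d : Fin D → ℕ),
    (∀ i, 0 < d i ∧ (g i).IsHomogeneous (d i)) → ∃ x ∈ Z, ∀ i, eval x (g i) = 0) ∧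
  ∃ (g : Fin (D + 1) → MvPolynomial (Fin (n + 1)) F) (d : Fin (D + 1) → ℕ),
    (∀ i, 0 < d i ∧ (g i).IsHomogeneous (d i)) ∧ ∀ x ∈ Z, ∃ i, eval x (g i) ≠ 0

theorem taskP' {F : Type} [Field F] [IsAlgClosed F] {σ ι : Type} [Fintype σ] [Fintype ι]
    (w : σ → ℕ) (hw : ∀ i, 0 < w i) (hc : Fintype.card ι < Fintype.card σ)
    (g : ι → MvPolynomial σ F) (d : ι → ℕ) (hd : ∀ i, 0 < d i)
    (hg : ∀ i, IsWeightedHomogeneous w (g i) (d i)) :
    ∃ x : σ → F, x ≠ 0 ∧ ∀ i, eval x (g i) = 0 := by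
  let e := Fintype.equivFin ι
  obtain ⟨x, hx, h⟩ := Pool.Agent.Helper25R3.TiltP.taskP F σ w hw (Fintype.card ι) hc
    (fun i => g (e.symm i)) (fun i => d (e.symm i)) (fun i => hd _) (fun i => hg _)
  exact ⟨x, hx, fun i => by have := h (e i); rwa [e.symm_apply_apply] at this⟩

theorem taskClosed' {F : Type} [Field F] [IsAlgClosed F] {ι : Type} [Fintype ι] (M n e : ℕ)
    (he : 0 < e) (g : ι → MvPolynomial (Fin M ⊕ Fin n) F) (d : ι → ℕ)
    (hg : ∀ i, IsWeightedHomogeneous (Sum.elim (fun _ => 1) (fun _ => e) : Fin M ⊕ Fin n → ℕ)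
      (g i) (d i))
    (h0 : ∀ x : Fin M → F, (∀ i, eval (Sum.elim x (fun _ => 0)) (g i) = 0) → x = 0) :
    ∃ S : Set (MvPolynomial (Fin n) F), (∀ f ∈ S, ∃ m : ℕ, f.IsHomogeneous m) ∧
      ∀ u : Fin n → F, (∀ f ∈ S, eval u f = 0) ↔
        ∃ x : Fin M → F, ∀ i, eval (Sum.elim x u) (g i) = 0 := by
  let e' := Fintype.equivFin ι
  obtain ⟨S, hS, h⟩ := Pool.Agent.H830R3.TA.taskClosed F M n (Fintype.card ι) e he
    (fun i => g (e'.symm i)) (fun i => d (e'.symm i)) (fun i => hg _)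
    (fun x hx => h0 x (fun i => by have := hx (e' i); rwa [e'.symm_apply_apply] at this))
  refine ⟨S, hS, fun u => (h u).trans ?_⟩
  constructor
  · rintro ⟨x, hx⟩
    exact ⟨x, fun i => by have := hx (e' i); rwa [e'.symm_apply_apply] at this⟩
  · rintro ⟨x, hx⟩
    exact ⟨x, fun i => hx _⟩

theorem map_weighted {A B σ : Type} [CommRing A] [CommRing B] (φ : A →+* B) (w : σ → ℕ) (m : ℕ)
    (G : MvPolynomial σ A) (hG : IsWeightedHomogeneous w G m) :
    IsWeightedHomogeneous w (map φ G) m := by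
  intro d hd
  apply hG
  intro h0
  rw [coeff_map, h0, map_zero] at hd
  exact hd rfl

theorem eval_map_alg {A B σ : Type} [CommRing A] [CommRing B] (φ : A →+* B) (a : σ → A)
    (G : MvPolynomial σ A) : eval (fun i => φ (a i)) (map φ G) = φ (eval a G) := by
  have h := eval₂_comp_left φ (RingHom.id A) a G
  rw [RingHom.comp_id] at h
  rw [eval_map]
  exact h.symm

variable (p : ℕ) [hp : Fact p.Prime]

theorem main (n D c e : ℕ) (he : 0 < e)
    (q : Fin c → MvPolynomial (Fin (D + c + 1)) (PadicComplex p)) (dq : Fin c → ℕ)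
    (hq : ∀ j, 0 < dq j ∧ (q j).IsHomogeneous (dq j))
    (f : Fin (n + 1) → MvPolynomial (Fin (D + c + 1)) (PadicComplex p))
    (hf : ∀ i, (f i).IsHomogeneous e)
    (hbase : ∀ x, (∀ j, eval x (q j) = 0) → (∀ i, eval x (f i) = 0) → x = 0)
    (X : Set (Fin (n + 1) → PadicComplex p)) (hXD : HasDim X D)
    (hfX : ∀ x, x ≠ 0 → (∀ j, eval x (q j) = 0) → (fun i => eval x (f i)) ∈ X)
    (t : ℕ) (h : Fin t → MvPolynomial (Fin (n + 1)) (PadicComplex p)) (dh : Fin t → ℕ)
    (hh : ∀ k, (h k).IsHomogeneous (dh k)) (hhX : ∀ k, ∀ x ∈ X, eval x (h k) = 0)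
    (ε : ℝ) (hε : 0 < ε) :
    ∃ Y : Set (Fin (n + 1) → Kf p), IsProjClosed Y ∧ HasDim Y D ∧
      ∀ y ∈ Y, ∀ k, ‖eval (fun i => sharp p (y i)) (h k)‖ ≤
        ε * ‖(fun i => sharp p (y i) : Fin (n + 1) → PadicComplex p)‖ ^ (dh k) := by
  classical
  have := Pool.Agent.H410R3.AC.taskAC p
  have hinj := IsFractionRing.injective (Flat p) (Kf p)
  obtain ⟨hX1, g, dg, hg, hgX⟩ := hXD
  have hXne : X.Nonempty := by
    obtain ⟨x, hx, -⟩ := hX1 (fun _ => 0) (fun _ => 1)
      (fun i => ⟨one_pos, isHomogeneous_zero _ _ _⟩)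
    exact ⟨x, hx⟩
  obtain ⟨δ1, hδ1, δ2, hδ2, hcon⟩ := consts p (D + c + 1) (n + 1) c (D + 1) t e he q f hf hbase X
    hXne hfX g hgX h dh hh hhX ε hε
  -- the weights and the equations of the graph
  set w : Fin (D + c + 1) ⊕ Fin (n + 1) → ℕ := Sum.elim (fun _ => 1) (fun _ => e) with hw
  have hwp : ∀ i, 0 < w i := by
    rintro (i | i)
    · exact one_pos
    · exact he
  let P : Fin (n + 1) ⊕ Fin c → MvPolynomial (Fin (D + c + 1) ⊕ Fin (n + 1)) (PadicComplex p) :=
    Sum.elim (fun k => MvPolynomial.X (Sum.inr k) -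
        bind₁ (fun j => MvPolynomial.X (Sum.inl j)) (f k))
      (fun j => bind₁ (fun j => MvPolynomial.X (Sum.inl j)) (q j))
  let deg : Fin (n + 1) ⊕ Fin c → ℕ := Sum.elim (fun _ => e) dq
  have hdeg : ∀ i, 0 < deg i := by
    rintro (i | i)
    · exact he
    · exact (hq i).1
  have hXl : ∀ j : Fin (D + c + 1), IsWeightedHomogeneous w
      (MvPolynomial.X (Sum.inl j) : MvPolynomial _ (PadicComplex p)) 1 :=
    fun j => isWeightedHomogeneous_X _ w (Sum.inl j)
  have hP : ∀ i, IsWeightedHomogeneous w (P i) (deg i) := by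
    rintro (i | i)
    · refine IsWeightedHomogeneous.sub (isWeightedHomogeneous_X _ w (Sum.inr i)) ?_
      have := Pool.Agent.H293R3.TA.taskSubst (PadicComplex p) _ _ w 1 e (f i) (hf i) _ hXl
      rwa [one_mul] at this
    · have := Pool.Agent.H293R3.TA.taskSubst (PadicComplex p) _ _ w 1 (dq i) (q i) (hq i).2 _ hXl
      rwa [one_mul] at this
  have happ := fun i => approx p w (deg i) (P i) (hP i) δ2 hδ2
  choose E G hG hGa using happ
  have happ2 := fun l => approx p (fun _ : Fin (n + 1) => 1) (dg l) (g l) (hg l).2 δ2 hδ2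
  choose E2 G2 hG2 hG2a using happ2
  let G' : Fin (n + 1) ⊕ Fin c → MvPolynomial (Fin (D + c + 1) ⊕ Fin (n + 1)) (Kf p) :=
    fun i => map (algebraMap (Flat p) (Kf p)) (G i)
  have hG' : ∀ i, IsWeightedHomogeneous w (G' i) (deg i * p ^ E i) :=
    fun i => map_weighted _ w _ _ (hG i)
  -- the core estimate
  have core : ∀ (x : Fin (D + c + 1) → Kf p) (u : Fin (n + 1) → Kf p),
      (x ≠ 0 ∨ u ≠ 0) → (∀ i, eval (Sum.elim x u) (G' i) = 0) →
      ∃ (l : Kf p) (b : Fin (n + 1) → Flat p), l ≠ 0 ∧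
        (∀ k, algebraMap (Flat p) (Kf p) (b k) = l ^ e * u k) ∧ (∃ k, δ1 ≤ nf p (b k)) ∧
        (∀ l', ‖eval (fun k => us p (b k)) (h l')‖ ≤ ε * δ1 ^ (dh l')) ∧
        (∃ l', δ2 < ‖eval (fun k => us p (b k)) (g l')‖) := by
    intro x u hxu hz
    have hxu' : (∃ i, x i ≠ 0) ∨ ∃ k, u k ≠ 0 := by
      rcases hxu with h1 | h1
      · exact Or.inl (Function.ne_iff.mp h1)
      · exact Or.inr (Function.ne_iff.mp h1)
    obtain ⟨l, a, b, hl, hla, hlb, hn⟩ := normalise p e he x u hxu'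
    have hzero : ∀ i, eval (Sum.elim a b) (G i) = 0 := by
      intro i
      apply hinj
      rw [map_zero, ← eval_map_alg]
      have h1 : (fun i => algebraMap (Flat p) (Kf p) (Sum.elim a b i)) =
          fun i => l ^ (w i) * (Sum.elim x u : Fin (D + c + 1) ⊕ Fin (n + 1) → Kf p) i := by
        funext i
        rcases i with i | i
        · show algebraMap (Flat p) (Kf p) (a i) = l ^ 1 * x i
          rw [hla, pow_one]
        · exact hlb i
      rw [h1, eval_weighted w _ _ (hG' i), hz i, mul_zero]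
    have hest := fun i => hGa i (Sum.elim a b) (hzero i)
    have hA : ∀ k, ‖us p (b k) - eval (fun i => us p (a i)) (f k)‖ ≤ δ2 := by
      intro k
      have h1 := hest (Sum.inl k)
      have h2 : eval (fun i => us p ((Sum.elim a b : Fin (D + c + 1) ⊕ Fin (n + 1) → Flat p) i))
          (P (Sum.inl k)) = us p (b k) - eval (fun i => us p (a i)) (f k) := by
        show eval _ (MvPolynomial.X (Sum.inr k) -
          bind₁ (fun j => MvPolynomial.X (Sum.inl j)) (f k)) = _
        rw [map_sub, eval_X, eval_bind₁']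
        simp only [eval_X, Sum.elim_inr, Sum.elim_inl]
      rw [h2] at h1
      exact h1
    have hB : ∀ j, ‖eval (fun i => us p (a i)) (q j)‖ ≤ δ2 := by
      intro j
      have h1 := hest (Sum.inr j)
      have h2 : eval (fun i => us p ((Sum.elim a b : Fin (D + c + 1) ⊕ Fin (n + 1) → Flat p) i))
          (P (Sum.inr j)) = eval (fun i => us p (a i)) (q j) := by
        show eval _ (bind₁ (fun j => MvPolynomial.X (Sum.inl j)) (q j)) = _
        rw [eval_bind₁']
        simp only [eval_X, Sum.elim_inl]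
      rw [h2] at h1
      exact h1
    obtain ⟨c1, c2, c3⟩ := hcon (fun i => us p (a i)) (fun k => us p (b k))
      (fun i => nf_le_one p (a i)) (fun k => nf_le_one p (b k)) hn hA hB
    exact ⟨l, b, hl, hlb, c1, c2, c3⟩
  have hfin : ∀ x : Fin (D + c + 1) → Kf p,
      (∀ i, eval (Sum.elim x (fun _ => 0)) (G' i) = 0) → x = 0 := by
    intro x hx
    by_contra hne
    obtain ⟨l, b, hl, hlb, ⟨k, hk⟩, -, -⟩ := core x (fun _ => 0) (Or.inl hne) hx
    have h1 := hlb k
    rw [mul_zero] at h1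
    have h2 : b k = 0 := (map_eq_zero_iff _ hinj).mp h1
    rw [h2, nf_zero] at hk
    exact absurd hδ1 (not_lt.mpr hk)
  obtain ⟨S, hS, hSu⟩ := taskClosed' (D + c + 1) (n + 1) e he G' _ hG' hfin
  refine ⟨{u | u ≠ 0 ∧ ∀ f ∈ S, eval u f = 0}, ⟨S, hS, rfl⟩, ⟨?_, ?_⟩, ?_⟩
  · -- lower bound for the dimension
    intro r dr hr
    have hXr : ∀ j : Fin (n + 1), IsWeightedHomogeneous w
        (MvPolynomial.X (Sum.inr j) : MvPolynomial _ (Kf p)) e :=
      fun j => isWeightedHomogeneous_X _ w (Sum.inr j)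
    obtain ⟨z, hz, hzz⟩ := taskP' (F := Kf p) (ι := (Fin (n + 1) ⊕ Fin c) ⊕ Fin D) w hwp
      (by simp only [Fintype.card_sum, Fintype.card_fin]; omega)
      (Sum.elim G' (fun i => bind₁ (fun j => MvPolynomial.X (Sum.inr j)) (r i)))
      (Sum.elim (fun i => deg i * p ^ E i) (fun i => e * dr i))
      (by
        rintro (i | i)
        · exact Nat.mul_pos (hdeg i) (pow_pos hp.out.pos _)
        · exact Nat.mul_pos he (hr i).1)
      (by
        rintro (i | i)
        · exact hG' i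
        · exact Pool.Agent.H293R3.TA.taskSubst (Kf p) _ _ w e (dr i) (r i) (hr i).2 _ hXr)
    set x : Fin (D + c + 1) → Kf p := fun i => z (Sum.inl i) with hx
    set u : Fin (n + 1) → Kf p := fun i => z (Sum.inr i) with hu
    have hzxu : z = Sum.elim x u := by
      funext i
      rcases i with i | i <;> rfl
    have hG0 : ∀ i, eval (Sum.elim x u) (G' i) = 0 := by
      intro i
      rw [← hzxu]
      exact hzz (Sum.inl i)
    have hu0 : u ≠ 0 := by
      intro h0
      have hx0 : x = 0 := hfin x (fun i => by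
        have := hG0 i
        rw [h0] at this
        exact this)
      apply hz
      rw [hzxu, hx0, h0]
      funext i
      rcases i with i | i <;> rfl
    refine ⟨u, ⟨hu0, (hSu u).mpr ⟨x, hG0⟩⟩, fun i => ?_⟩
    have h1 := hzz (Sum.inr i)
    simp only [Sum.elim_inr] at h1
    rw [eval_bind₁'] at h1
    simp only [eval_X] at h1
    exact h1
  · -- upper bound for the dimension
    refine ⟨fun l => map (algebraMap (Flat p) (Kf p)) (G2 l), fun l => dg l * p ^ E2 l,
      fun l => ⟨Nat.mul_pos (hg l).1 (pow_pos hp.out.pos _), map_weighted _ _ _ _ (hG2 l)⟩, ?_⟩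
    rintro u ⟨hu0, hu⟩
    obtain ⟨x, hx⟩ := (hSu u).mp hu
    obtain ⟨l, b, hl, hlb, -, -, ⟨l', hl'⟩⟩ := core x u (Or.inr hu0) hx
    refine ⟨l', fun h0 => ?_⟩
    have h1 : eval b (G2 l') = 0 := by
      apply hinj
      rw [map_zero, ← eval_map_alg]
      have h2 : (fun i => algebraMap (Flat p) (Kf p) (b i)) =
          fun i => (l ^ e) ^ ((fun _ : Fin (n + 1) => 1) i) * u i := by
        funext i
        rw [hlb i, pow_one]
      rw [h2, eval_weighted (fun _ => 1) _ _ (map_weighted _ _ _ _ (hG2 l')), h0, mul_zero]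
    exact absurd hl' (not_lt.mpr (hG2a l' b h1))
  · -- the tube
    rintro u ⟨hu0, hu⟩ k
    obtain ⟨x, hx⟩ := (hSu u).mp hu
    obtain ⟨l, b, hl, hlb, ⟨k', hk'⟩, hest, -⟩ := core x u (Or.inr hu0) hx
    set μ := sharp p (l ^ e) with hμ
    have hμ0 : μ ≠ 0 := sharp_ne_zero p (pow_ne_zero _ hl)
    have hsb : ∀ i, us p (b i) = μ * sharp p (u i) := by
      intro i
      rw [← sharp_algebraMap, hlb i, sharp_mul]
    have hsu : ∀ i, sharp p (u i) = μ⁻¹ * us p (b i) := by
      intro i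
      rw [hsb i, inv_mul_cancel_left₀ hμ0]
    have h1 : eval (fun i => sharp p (u i)) (h k) =
        μ⁻¹ ^ (dh k) * eval (fun i => us p (b i)) (h k) := by
      have h2 := eval_weighted (fun _ => 1) (dh k) (h k) (hh k) (μ⁻¹) (fun i => us p (b i))
      rw [← h2]
      congr 2
      funext i
      rw [hsu i, pow_one]
    rw [h1, norm_mul, norm_pow]
    have h3 : ‖μ⁻¹‖ * δ1 ≤ ‖(fun i => sharp p (u i) : Fin (n + 1) → PadicComplex p)‖ := by
      refine le_trans ?_ (norm_le_pi_norm (fun i => sharp p (u i) : Fin (n + 1) → PadicComplex p) k')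
      rw [hsu k', norm_mul]
      exact mul_le_mul_of_nonneg_left hk' (norm_nonneg _)
    calc ‖μ⁻¹‖ ^ dh k * ‖eval (fun i => us p (b i)) (h k)‖
        ≤ ‖μ⁻¹‖ ^ dh k * (ε * δ1 ^ dh k) :=
          mul_le_mul_of_nonneg_left (hest k) (pow_nonneg (norm_nonneg _) _)
      _ = ε * (‖μ⁻¹‖ * δ1) ^ dh k := by rw [mul_pow]; ring
      _ ≤ ε * ‖(fun i => sharp p (u i) : Fin (n + 1) → PadicComplex p)‖ ^ dh k := by
          apply mul_le_mul_of_nonneg_left _ hε.le
          exact pow_le_pow_left₀ (mul_nonneg (norm_nonneg _) hδ1.le) h3 _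

end Pool.Agent.Helper849.TA
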