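import Pool.Agent.Helper849.TA.Approx2
import Pool.Agent.Helper849.TA.Main
import Pool.Agent.Helper849.TA.Stmts2

set_option autoImplicit false

namespace Pool.Agent.Helper849.TA

open Pool.Agent.H356R3.FM MvPolynomial

/-- finitely many elements of a set of polynomials over a field have the same common zeros -/
theorem exists_finite_sub {F σ : Type} [Field F] [Finite σ] (S : Set (MvPolynomial σ F)) :
    ∃ T : Finset (MvPolynomial σ F), (∀ h ∈ T, h ∈ S) ∧
      ∀ z : σ → F, (∀ h ∈ T, eval z h = 0) → ∀ h ∈ S, eval z h = 0 := by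
  classical
  have hfg : (Ideal.span S).FG := (isNoetherianRing_iff_ideal_fg _).mp inferInstance _
  obtain ⟨T, hTS, hT⟩ := (Submodule.fg_span_iff_fg_span_finset_subset S).mp hfg
  refine ⟨T, fun h hh => hTS hh, fun z hz h hh => ?_⟩
  have h1 : Ideal.span S ≤ RingHom.ker (eval z) := by
    have h2 : Ideal.span S = Ideal.span (T : Set (MvPolynomial σ F)) := hT
    rw [h2, Ideal.span_le]
    intro g hg
    exact hz g hg
  exact h1 (Ideal.subset_span hh)

variable (p : ℕ) [hp : Fact p.Prime]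

theorem main2 (hP2 : TaskP2) (hEl : TaskElim) (n N m D c₁ c₂ e : ℕ) (he : 0 < e)
    (hdim : D + c₁ + c₂ = N + m) (hm : m ≤ c₂)
    (q : Fin c₁ → MvPolynomial (Fin (N + 1)) (PadicComplex p)) (dq : Fin c₁ → ℕ)
    (hq : ∀ j, 0 < dq j ∧ (q j).IsHomogeneous (dq j))
    (v : Fin (m + 1) → ℕ)
    (r : Fin c₂ → MvPolynomial (Fin (N + 1) ⊕ Fin (m + 1)) (PadicComplex p)) (ar br : Fin c₂ → ℕ)
    (hr1 : ∀ j, IsWeightedHomogeneous (Sum.elim (fun _ => 1) v) (r j) (ar j))
    (hr2 : ∀ j, IsWeightedHomogeneous (Sum.elim (fun _ => 0) (fun _ => 1) :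
      Fin (N + 1) ⊕ Fin (m + 1) → ℕ) (r j) (br j))
    (hbr : ∀ j, 0 < br j ∧ ∀ i, br j * v i < ar j)
    (f : Fin (n + 1) → MvPolynomial (Fin (N + 1)) (PadicComplex p))
    (hf : ∀ i, (f i).IsHomogeneous e)
    (hbase : ∀ (x : Fin (N + 1) → PadicComplex p) (y : Fin (m + 1) → PadicComplex p),
      (∀ j, eval x (q j) = 0) → (∀ j, eval (Sum.elim x y) (r j) = 0) →
      (∀ i, eval x (f i) = 0) → x = 0 ∨ y = 0)
    (X : Set (Fin (n + 1) → PadicComplex p)) (hXD : HasDim X D)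
    (hfX : ∀ (x : Fin (N + 1) → PadicComplex p) (y : Fin (m + 1) → PadicComplex p),
      x ≠ 0 → y ≠ 0 → (∀ j, eval x (q j) = 0) → (∀ j, eval (Sum.elim x y) (r j) = 0) →
      (fun i => eval x (f i)) ∈ X)
    (t : ℕ) (h : Fin t → MvPolynomial (Fin (n + 1)) (PadicComplex p)) (dh : Fin t → ℕ)
    (hh : ∀ k, (h k).IsHomogeneous (dh k)) (hhX : ∀ k, ∀ x ∈ X, eval x (h k) = 0)
    (ε : ℝ) (hε : 0 < ε) :
    ∃ Y : Set (Fin (n + 1) → Kf p), IsProjClosed Y ∧ HasDim Y D ∧
      ∀ y ∈ Y, ∀ k, ‖eval (fun i => sharp p (y i)) (h k)‖ ≤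
        ε * ‖(fun i => sharp p (y i) : Fin (n + 1) → PadicComplex p)‖ ^ (dh k) := by
  classical
  have := Pool.Agent.H410R3.AC.taskAC p
  have hinj := IsFractionRing.injective (Flat p) (Kf p)
  obtain ⟨hX1, g, dg, hg, hgX⟩ := hXD
  have hXne : X.Nonempty := by
    obtain ⟨x, hx, -⟩ := hX1 (fun _ => 0) (fun _ => 1)
      (fun i => ⟨one_pos, isHomogeneous_zero _ _ _⟩)
    exact ⟨x, hx⟩
  obtain ⟨δ1, hδ1, δ2, hδ2, hcon⟩ := consts2 p (N + 1) (n + 1) (m + 1) c₁ c₂ (D + 1) t e he q r f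
    hf hbase X hXne hfX g hgX h dh hh hhX ε hε
  -- the weights and the equations of the graph
  set w : Fin (N + 1) ⊕ Fin (n + 1) → ℕ := Sum.elim (fun _ => 1) (fun _ => e) with hw
  have hwp : ∀ i, 0 < w i := by
    rintro (i | i)
    · exact one_pos
    · exact he
  let P : Fin (n + 1) ⊕ Fin c₁ → MvPolynomial (Fin (N + 1) ⊕ Fin (n + 1)) (PadicComplex p) :=
    Sum.elim (fun k => MvPolynomial.X (Sum.inr k) -
        bind₁ (fun j => MvPolynomial.X (Sum.inl j)) (f k))
      (fun j => bind₁ (fun j => MvPolynomial.X (Sum.inl j)) (q j))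
  let deg : Fin (n + 1) ⊕ Fin c₁ → ℕ := Sum.elim (fun _ => e) dq
  have hdeg : ∀ i, 0 < deg i := by
    rintro (i | i)
    · exact he
    · exact (hq i).1
  have hXl : ∀ j : Fin (N + 1), IsWeightedHomogeneous w
      (MvPolynomial.X (Sum.inl j) : MvPolynomial _ (PadicComplex p)) 1 :=
    fun j => isWeightedHomogeneous_X _ w (Sum.inl j)
  have hP : ∀ i, IsWeightedHomogeneous w (P i) (deg i) := by
    rintro (i | i)
    · refine IsWeightedHomogeneous.sub (isWeightedHomogeneous_X _ w (Sum.inr i)) ?_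
      have := Pool.Agent.H293R3.TA.taskSubst (PadicComplex p) _ _ w 1 e (f i) (hf i) _ hXl
      rwa [one_mul] at this
    · have := Pool.Agent.H293R3.TA.taskSubst (PadicComplex p) _ _ w 1 (dq i) (q i) (hq i).2 _ hXl
      rwa [one_mul] at this
  have happ := fun i => approx p w (deg i) (P i) (hP i) δ2 hδ2
  choose E G hG hGa using happ
  have happ2 := fun l => approx p (fun _ : Fin (n + 1) => 1) (dg l) (g l) (hg l).2 δ2 hδ2
  choose E2 G2 hG2 hG2a using happ2
  -- the equations in `x, y`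
  let inj : Fin (N + 1) ⊕ Fin (m + 1) → (Fin (N + 1) ⊕ Fin (n + 1)) ⊕ Fin (m + 1) :=
    Sum.elim (fun i => Sum.inl (Sum.inl i)) (fun i => Sum.inr i)
  let PR : Fin c₂ → MvPolynomial ((Fin (N + 1) ⊕ Fin (n + 1)) ⊕ Fin (m + 1)) (PadicComplex p) :=
    fun j => bind₁ (fun i => MvPolynomial.X (inj i)) (r j)
  have hPR1 : ∀ j, IsWeightedHomogeneous (Sum.elim w v) (PR j) (ar j) := by
    intro j
    refine substW _ _ _ (r j) (hr1 j) _ (fun i => ?_)
    have h1 := isWeightedHomogeneous_X (PadicComplex p) (Sum.elim w v) (inj i)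
    rcases i with i | i
    · exact h1
    · exact h1
  have hPR2 : ∀ j, IsWeightedHomogeneous (Sum.elim (fun _ => 0) (fun _ => 1) :
      (Fin (N + 1) ⊕ Fin (n + 1)) ⊕ Fin (m + 1) → ℕ) (PR j) (br j) := by
    intro j
    refine substW _ _ _ (r j) (hr2 j) _ (fun i => ?_)
    have h1 := isWeightedHomogeneous_X (PadicComplex p) (Sum.elim (fun _ => 0) (fun _ => 1) :
      (Fin (N + 1) ⊕ Fin (n + 1)) ⊕ Fin (m + 1) → ℕ) (inj i)
    rcases i with i | i
    · exact h1
    · exact h1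
  have happ3 := fun j => approxG p (PR j) δ2 hδ2
  choose ER GR hGR hGRa using happ3
  let G' : Fin (n + 1) ⊕ Fin c₁ → MvPolynomial (Fin (N + 1) ⊕ Fin (n + 1)) (Kf p) :=
    fun i => map (algebraMap (Flat p) (Kf p)) (G i)
  have hG' : ∀ i, IsWeightedHomogeneous w (G' i) (deg i * p ^ E i) :=
    fun i => map_weighted _ w _ _ (hG i)
  let GR' : Fin c₂ → MvPolynomial ((Fin (N + 1) ⊕ Fin (n + 1)) ⊕ Fin (m + 1)) (Kf p) :=
    fun j => map (algebraMap (Flat p) (Kf p)) (GR j)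
  have hGR1 : ∀ j, IsWeightedHomogeneous (Sum.elim w v) (GR' j) (ar j * p ^ ER j) :=
    fun j => map_weighted _ _ _ _ (hGR j _ _ (hPR1 j))
  have hGR2 : ∀ j, IsWeightedHomogeneous (Sum.elim (fun _ => 0) (fun _ => 1) :
      (Fin (N + 1) ⊕ Fin (n + 1)) ⊕ Fin (m + 1) → ℕ) (GR' j) (br j * p ^ ER j) :=
    fun j => map_weighted _ _ _ _ (hGR j _ _ (hPR2 j))
  -- the core estimate
  have core : ∀ (x : Fin (N + 1) → Kf p) (u : Fin (n + 1) → Kf p) (y : Fin (m + 1) → Kf p),
      (x ≠ 0 ∨ u ≠ 0) → y ≠ 0 → (∀ i, eval (Sum.elim x u) (G' i) = 0) →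
      (∀ j, eval (Sum.elim (Sum.elim x u) y) (GR' j) = 0) →
      ∃ (l : Kf p) (b : Fin (n + 1) → Flat p), l ≠ 0 ∧
        (∀ k, algebraMap (Flat p) (Kf p) (b k) = l ^ e * u k) ∧ (∃ k, δ1 ≤ nf p (b k)) ∧
        (∀ l', ‖eval (fun k => us p (b k)) (h l')‖ ≤ ε * δ1 ^ (dh l')) ∧
        (∃ l', δ2 < ‖eval (fun k => us p (b k)) (g l')‖) := by
    intro x u y hxu hy hz hzR
    have hxu' : (∃ i, x i ≠ 0) ∨ ∃ k, u k ≠ 0 := by
      rcases hxu with h1 | h1
      · exact Or.inl (Function.ne_iff.mp h1)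
      · exact Or.inr (Function.ne_iff.mp h1)
    obtain ⟨l, a, b, hl, hla, hlb, hn⟩ := normalise p e he x u hxu'
    have hy' : (∃ i, l ^ (v i) * y i ≠ 0) ∨ ∃ k : Empty, (fun k : Empty => (k.elim : Kf p)) k ≠ 0 := by
      obtain ⟨i, hi⟩ := Function.ne_iff.mp hy
      exact Or.inl ⟨i, mul_ne_zero (pow_ne_zero _ hl) hi⟩
    obtain ⟨l2, yy, bb, hl2, hlyy, -, hnyy⟩ := normalise p 1 one_pos (fun i => l ^ (v i) * y i)
      (fun k : Empty => (k.elim : Kf p)) hy'
    have hny : ∃ i, nf p (yy i) = 1 := by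
      rcases hnyy with h1 | ⟨k, _⟩
      · exact h1
      · exact k.elim
    have hsc : (fun i => algebraMap (Flat p) (Kf p)
          ((Sum.elim a b : Fin (N + 1) ⊕ Fin (n + 1) → Flat p) i)) =
          fun i => l ^ (w i) * (Sum.elim x u : Fin (N + 1) ⊕ Fin (n + 1) → Kf p) i := by
      funext i
      rcases i with i | i
      · show algebraMap (Flat p) (Kf p) (a i) = l ^ 1 * x i
        rw [hla, pow_one]
      · exact hlb i
    have hzero : ∀ i, eval (Sum.elim a b) (G i) = 0 := by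
      intro i
      apply hinj
      rw [map_zero, ← eval_map_alg]
      rw [hsc, eval_weighted w _ _ (hG' i), hz i, mul_zero]
    have hzeroR : ∀ j, eval (Sum.elim (Sum.elim a b) yy) (GR j) = 0 := by
      intro j
      apply hinj
      rw [map_zero, ← eval_map_alg]
      have h2 : (fun i => algebraMap (Flat p) (Kf p)
          ((Sum.elim (Sum.elim a b) yy : (Fin (N + 1) ⊕ Fin (n + 1)) ⊕ Fin (m + 1) → Flat p) i)) =
          fun i => l2 ^ ((Sum.elim (fun _ => 0) (fun _ => 1) :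
            (Fin (N + 1) ⊕ Fin (n + 1)) ⊕ Fin (m + 1) → ℕ) i) *
            (fun i => l ^ ((Sum.elim w v : (Fin (N + 1) ⊕ Fin (n + 1)) ⊕ Fin (m + 1) → ℕ) i) *
              (Sum.elim (Sum.elim x u) y :
                (Fin (N + 1) ⊕ Fin (n + 1)) ⊕ Fin (m + 1) → Kf p) i) i := by
        funext i
        rcases i with i | i
        · show algebraMap (Flat p) (Kf p) _ = l2 ^ 0 * (l ^ (w i) * _)
          rw [pow_zero, one_mul]
          exact congrFun hsc i
        · show algebraMap (Flat p) (Kf p) (yy i) = l2 ^ 1 * (l ^ (v i) * y i)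
          rw [pow_one]
          exact hlyy i
      rw [h2, eval_weighted _ _ _ (hGR2 j), eval_weighted _ _ _ (hGR1 j), hzR j, mul_zero, mul_zero]
    have hest := fun i => hGa i (Sum.elim a b) (hzero i)
    have hA : ∀ k, ‖us p (b k) - eval (fun i => us p (a i)) (f k)‖ ≤ δ2 := by
      intro k
      have h1 := hest (Sum.inl k)
      have h2 : eval (fun i => us p ((Sum.elim a b : Fin (N + 1) ⊕ Fin (n + 1) → Flat p) i))
          (P (Sum.inl k)) = us p (b k) - eval (fun i => us p (a i)) (f k) := by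
        show eval _ (MvPolynomial.X (Sum.inr k) -
          bind₁ (fun j => MvPolynomial.X (Sum.inl j)) (f k)) = _
        rw [map_sub, eval_X, eval_bind₁']
        simp only [eval_X, Sum.elim_inr, Sum.elim_inl]
      rw [h2] at h1
      exact h1
    have hB : ∀ j, ‖eval (fun i => us p (a i)) (q j)‖ ≤ δ2 := by
      intro j
      have h1 := hest (Sum.inr j)
      have h2 : eval (fun i => us p ((Sum.elim a b : Fin (N + 1) ⊕ Fin (n + 1) → Flat p) i))
          (P (Sum.inr j)) = eval (fun i => us p (a i)) (q j) := by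
        show eval _ (bind₁ (fun j => MvPolynomial.X (Sum.inl j)) (q j)) = _
        rw [eval_bind₁']
        simp only [eval_X, Sum.elim_inl]
      rw [h2] at h1
      exact h1
    have hR : ∀ j, ‖eval (Sum.elim (fun i => us p (a i)) (fun i => us p (yy i))) (r j)‖ ≤ δ2 := by
      intro j
      have h1 := hGRa j _ (hzeroR j)
      have h2 : eval (fun i => us p ((Sum.elim (Sum.elim a b) yy :
          (Fin (N + 1) ⊕ Fin (n + 1)) ⊕ Fin (m + 1) → Flat p) i)) (PR j) =
          eval (Sum.elim (fun i => us p (a i)) (fun i => us p (yy i))) (r j) := by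
        show eval _ (bind₁ (fun i => MvPolynomial.X (inj i)) (r j)) = _
        rw [eval_bind₁']
        congr 2
        funext i
        rw [eval_X]
        rcases i with i | i <;> rfl
      rw [h2] at h1
      exact h1
    obtain ⟨c1, c2, c3⟩ := hcon (fun i => us p (a i)) (fun k => us p (b k)) (fun i => us p (yy i))
      (fun i => nf_le_one p (a i)) (fun k => nf_le_one p (b k)) (fun i => nf_le_one p (yy i))
      hn hny hA hB hR
    exact ⟨l, b, hl, hlb, c1, c2, c3⟩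
  -- elimination of `y`
  obtain ⟨S2, hS2, hS2z⟩ := hEl (Kf p) (Fin (N + 1) ⊕ Fin (n + 1)) w m v (Fin c₂) GR' _ _ hGR1 hGR2
  obtain ⟨T2, hT2S, hT2⟩ := exists_finite_sub S2
  have hdegT : ∀ h : T2, ∃ k : ℕ, IsWeightedHomogeneous w h.1 k := fun h => hS2 h.1 (hT2S h.1 h.2)
  choose dT hdT using hdegT
  let G3 : (Fin (n + 1) ⊕ Fin c₁) ⊕ T2 → MvPolynomial (Fin (N + 1) ⊕ Fin (n + 1)) (Kf p) :=
    Sum.elim G' (fun h => h.1)
  have hG3 : ∀ z : Fin (N + 1) ⊕ Fin (n + 1) → Kf p, (∀ i, eval z (G3 i) = 0) ↔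
      (∀ i, eval z (G' i) = 0) ∧ ∃ y : Fin (m + 1) → Kf p, y ≠ 0 ∧
        ∀ j, eval (Sum.elim z y) (GR' j) = 0 := by
    intro z
    constructor
    · intro hz
      refine ⟨fun i => hz (Sum.inl i), ?_⟩
      rw [← hS2z]
      exact hT2 z (fun h hh => hz (Sum.inr ⟨h, hh⟩))
    · rintro ⟨h1, h2⟩ (i | i)
      · exact h1 i
      · rw [← hS2z] at h2
        exact h2 i.1 (hT2S i.1 i.2)
  have hfin : ∀ x : Fin (N + 1) → Kf p,
      (∀ i, eval (Sum.elim x (fun _ => 0)) (G3 i) = 0) → x = 0 := by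
    intro x hx
    by_contra hne
    obtain ⟨hx1, y, hy, hy1⟩ := (hG3 _).mp hx
    obtain ⟨l, b, hl, hlb, ⟨k, hk⟩, -, -⟩ := core x (fun _ => 0) y (Or.inl hne) hy hx1 hy1
    have h1 := hlb k
    rw [mul_zero] at h1
    have h2 : b k = 0 := (map_eq_zero_iff _ hinj).mp h1
    rw [h2, nf_zero] at hk
    exact absurd hδ1 (not_lt.mpr hk)
  obtain ⟨S, hS, hSu⟩ := taskClosed' (N + 1) (n + 1) e he G3
    (Sum.elim (fun i => deg i * p ^ E i) dT)
    (by
      rintro (i | i)
      · exact hG' i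
      · exact hdT i) hfin
  refine ⟨{u | u ≠ 0 ∧ ∀ f ∈ S, eval u f = 0}, ⟨S, hS, rfl⟩, ⟨?_, ?_⟩, ?_⟩
  · -- lower bound for the dimension
    intro s ds hs
    have hXr : ∀ j : Fin (n + 1), IsWeightedHomogeneous w
        (MvPolynomial.X (Sum.inr j) : MvPolynomial _ (Kf p)) e :=
      fun j => isWeightedHomogeneous_X _ w (Sum.inr j)
    obtain ⟨z, y, hz, hy, hzz, hyy⟩ := hP2 (Kf p) (Fin (N + 1) ⊕ Fin (n + 1)) w hwp m v
      ((Fin (n + 1) ⊕ Fin c₁) ⊕ Fin D) (Fin c₂)
      (by simp only [Fintype.card_sum, Fintype.card_fin]; omega)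
      (by simp only [Fintype.card_sum, Fintype.card_fin]; omega)
      (Sum.elim G' (fun i => bind₁ (fun j => MvPolynomial.X (Sum.inr j)) (s i)))
      (Sum.elim (fun i => deg i * p ^ E i) (fun i => e * ds i))
      (by
        rintro (i | i)
        · exact Nat.mul_pos (hdeg i) (pow_pos hp.out.pos _)
        · exact Nat.mul_pos he (hs i).1)
      (by
        rintro (i | i)
        · exact hG' i
        · exact Pool.Agent.H293R3.TA.taskSubst (Kf p) _ _ w e (ds i) (s i) (hs i).2 _ hXr)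
      GR' (fun j => ar j * p ^ ER j) (fun j => br j * p ^ ER j)
      (fun j => Nat.mul_pos (hbr j).1 (pow_pos hp.out.pos _))
      (fun j i => by
        have h1 := (hbr j).2 i
        have h2 : 0 < p ^ ER j := pow_pos hp.out.pos _
        calc br j * p ^ ER j * v i = (br j * v i) * p ^ ER j := by ring
          _ < ar j * p ^ ER j := Nat.mul_lt_mul_of_pos_right h1 h2)
      hGR1 hGR2
    set x : Fin (N + 1) → Kf p := fun i => z (Sum.inl i) with hx
    set u : Fin (n + 1) → Kf p := fun i => z (Sum.inr i) with hu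
    have hzxu : z = Sum.elim x u := by
      funext i
      rcases i with i | i <;> rfl
    have hG0 : ∀ i, eval (Sum.elim x u) (G3 i) = 0 := by
      rw [hG3, ← hzxu]
      exact ⟨fun i => hzz (Sum.inl i), y, hy, hyy⟩
    have hu0 : u ≠ 0 := by
      intro h0
      have hx0 : x = 0 := hfin x (fun i => by
        have := hG0 i
        rw [h0] at this
        exact this)
      apply hz
      rw [hzxu, hx0, h0]
      funext i
      rcases i with i | i <;> rfl
    refine ⟨u, ⟨hu0, (hSu u).mpr ⟨x, hG0⟩⟩, fun i => ?_⟩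
    have h1 := hzz (Sum.inr i)
    simp only [Sum.elim_inr] at h1
    rw [eval_bind₁'] at h1
    simp only [eval_X] at h1
    exact h1
  · -- upper bound for the dimension
    refine ⟨fun l => map (algebraMap (Flat p) (Kf p)) (G2 l), fun l => dg l * p ^ E2 l,
      fun l => ⟨Nat.mul_pos (hg l).1 (pow_pos hp.out.pos _), map_weighted _ _ _ _ (hG2 l)⟩, ?_⟩
    rintro u ⟨hu0, hu⟩
    obtain ⟨x, hx⟩ := (hSu u).mp hu
    obtain ⟨hx1, y, hy, hy1⟩ := (hG3 _).mp hx
    obtain ⟨l, b, hl, hlb, -, -, ⟨l', hl'⟩⟩ := core x u y (Or.inr hu0) hy hx1 hy1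
    refine ⟨l', fun h0 => ?_⟩
    have h1 : eval b (G2 l') = 0 := by
      apply hinj
      rw [map_zero, ← eval_map_alg]
      have h2 : (fun i => algebraMap (Flat p) (Kf p) (b i)) =
          fun i => (l ^ e) ^ ((fun _ : Fin (n + 1) => 1) i) * u i := by
        funext i
        rw [hlb i, pow_one]
      rw [h2, eval_weighted (fun _ => 1) _ _ (map_weighted _ _ _ _ (hG2 l')), h0, mul_zero]
    exact absurd hl' (not_lt.mpr (hG2a l' b h1))
  · -- the tube
    rintro u ⟨hu0, hu⟩ k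
    obtain ⟨x, hx⟩ := (hSu u).mp hu
    obtain ⟨hx1, y, hy, hy1⟩ := (hG3 _).mp hx
    obtain ⟨l, b, hl, hlb, ⟨k', hk'⟩, hest, -⟩ := core x u y (Or.inr hu0) hy hx1 hy1
    set μ := sharp p (l ^ e) with hμ
    have hμ0 : μ ≠ 0 := sharp_ne_zero p (pow_ne_zero _ hl)
    have hsb : ∀ i, us p (b i) = μ * sharp p (u i) := by
      intro i
      rw [← sharp_algebraMap, hlb i, sharp_mul]
    have hsu : ∀ i, sharp p (u i) = μ⁻¹ * us p (b i) := by
      intro i
      rw [hsb i, inv_mul_cancel_left₀ hμ0]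
    have h1 : eval (fun i => sharp p (u i)) (h k) =
        μ⁻¹ ^ (dh k) * eval (fun i => us p (b i)) (h k) := by
      have h2 := eval_weighted (fun _ => 1) (dh k) (h k) (hh k) (μ⁻¹) (fun i => us p (b i))
      rw [← h2]
      congr 2
      funext i
      rw [hsu i, pow_one]
    rw [h1, norm_mul, norm_pow]
    have h3 : ‖μ⁻¹‖ * δ1 ≤ ‖(fun i => sharp p (u i) : Fin (n + 1) → PadicComplex p)‖ := by
      refine le_trans ?_ (norm_le_pi_norm (fun i => sharp p (u i) : Fin (n + 1) → PadicComplex p) k')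
      rw [hsu k', norm_mul]
      exact mul_le_mul_of_nonneg_left hk' (norm_nonneg _)
    calc ‖μ⁻¹‖ ^ dh k * ‖eval (fun i => us p (b i)) (h k)‖
        ≤ ‖μ⁻¹‖ ^ dh k * (ε * δ1 ^ dh k) :=
          mul_le_mul_of_nonneg_left (hest k) (pow_nonneg (norm_nonneg _) _)
      _ = ε * (‖μ⁻¹‖ * δ1) ^ dh k := by rw [mul_pow]; ring
      _ ≤ ε * ‖(fun i => sharp p (u i) : Fin (n + 1) → PadicComplex p)‖ ^ dh k := by
          apply mul_le_mul_of_nonneg_left _ hε.le
          exact pow_le_pow_left₀ (mul_nonneg (norm_nonneg _) hδ1.le) h3 _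

end Pool.Agent.Helper849.TA
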