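import Pool.Agent.Helper849.TA.Basic

set_option autoImplicit false

namespace Pool.Agent.Helper849.TA

open Pool.Agent.H356R3.FM MvPolynomial WittVector

variable (p : ℕ) [hp : Fact p.Prime]

section
variable {ι : Type} [Fintype ι]

/-- the `i`-th Teichmueller digit of a sum of Teichmueller representatives -/
noncomputable def Sc (i : ℕ) (b : ι → Flat p) : Flat p :=
  ((_root_.frobeniusEquiv (Flat p) p).symm ^ i) ((∑ j, teichmuller p (b j) : Ainf p).coeff i)

theorem symm_pow_pow (i : ℕ) (y : Flat p) :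
    (((_root_.frobeniusEquiv (Flat p) p).symm ^ i) y) ^ (p ^ i) = y := by
  induction i with
  | zero => simp
  | succ i ih =>
    rw [pow_succ' (_root_.frobeniusEquiv (Flat p) p).symm, pow_succ' p, pow_mul]
    have h : ((_root_.frobeniusEquiv (Flat p) p).symm *
        (_root_.frobeniusEquiv (Flat p) p).symm ^ i) y =
        (_root_.frobeniusEquiv (Flat p) p).symm (((_root_.frobeniusEquiv (Flat p) p).symm ^ i) y) :=
      rfl
    rw [h, frobeniusEquiv_symm_pow_p, ih]

theorem Sc_pow (i : ℕ) (b : ι → Flat p) :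
    Sc p i b ^ (p ^ i) = (∑ j, teichmuller p (b j) : Ainf p).coeff i :=
  symm_pow_pow p i _

theorem Sc_zero (b : ι → Flat p) : Sc p 0 b = ∑ j, b j := by
  have h := Sc_pow p 0 b
  rw [pow_zero, pow_one] at h
  rw [h]
  have h2 : (WittVector.constantCoeff : Ainf p →+* Flat p) (∑ j, teichmuller p (b j)) =
      ∑ j, b j := by
    rw [map_sum]
    apply Finset.sum_congr rfl
    intro j _
    exact teichmuller_coeff_zero p (b j)
  exact h2

theorem nf_aeval_le (P : MvPolynomial ι ℤ) (m : ℕ) (hP : P.IsHomogeneous m) (b : ι → Flat p)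
    (R : ℝ) (hR : 0 ≤ R) (hb : ∀ j, nf p (b j) ≤ R) : nf p (aeval b P) ≤ R ^ m := by
  rw [aeval_def, eval₂_eq']
  apply nf_sum_le p _ _ _ (pow_nonneg hR m)
  intro d hd
  have hdm : ∑ i, d i = m := by
    have h1 : d.degree = m := by
      by_contra hne
      exact (mem_support_iff.mp hd) (hP.coeff_eq_zero hne)
    rw [← h1]
    exact (Finsupp.degree_eq_sum d).symm
  rw [nf_mul]
  have h1 : nf p (∏ i, b i ^ d i) ≤ R ^ m := by
    rw [← hdm, ← Finset.prod_pow_eq_pow_sum]
    have : ∀ s : Finset ι, nf p (∏ i ∈ s, b i ^ d i) ≤ ∏ i ∈ s, R ^ d i := by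
      classical
      intro s
      induction s using Finset.induction_on with
      | empty => rw [Finset.prod_empty, Finset.prod_empty, nf_one]
      | insert i s hi ih =>
        rw [Finset.prod_insert hi, Finset.prod_insert hi, nf_mul, nf_pow]
        apply mul_le_mul _ ih (nf_nonneg p _) (pow_nonneg hR _)
        exact pow_le_pow_left₀ (nf_nonneg p _) (hb i) _
    exact this Finset.univ
  calc nf p (algebraMap ℤ (Flat p) (coeff d P)) * nf p (∏ i, b i ^ d i)
      ≤ 1 * R ^ m := mul_le_mul (nf_le_one p _) h1 (nf_nonneg p _) zero_le_one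
    _ = R ^ m := one_mul _

theorem nf_Sc_le (hW : TaskWitt) (i : ℕ) (b : ι → Flat p) (R : ℝ) (hR : 0 ≤ R)
    (hb : ∀ j, nf p (b j) ≤ R) : nf p (Sc p i b) ≤ R := by
  obtain ⟨P, hP, hPe⟩ := hW p ι i
  have h1 : nf p (Sc p i b) ^ (p ^ i) ≤ R ^ (p ^ i) := by
    rw [← nf_pow, Sc_pow, hPe]
    exact nf_aeval_le p P _ hP b R hR hb
  exact le_of_pow_le_pow_left₀ (pow_pos hp.out.pos i).ne' hR h1

/-- One step of the iteration. -/
noncomputable def T (w : Flat p) (M : ℕ) (b : ι → Flat p) : Fin (M + 1) → Flat p :=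
  fun i => w ^ (i : ℕ) * Sc p i b

theorem T_zero (w : Flat p) (M : ℕ) (b : ι → Flat p) : T p w M b 0 = ∑ j, b j := by
  unfold T
  rw [Fin.val_zero, pow_zero, one_mul, Sc_zero]

theorem sum_untilt (w : Flat p) (hw : PreTilt.untilt w = (p : OC p)) (M : ℕ) (b : ι → Flat p) :
    ∃ z : OC p, ∑ j, PreTilt.untilt (b j) =
      ∑ i, PreTilt.untilt (T p w M b i) + (p : OC p) ^ (M + 1) * z := by
  obtain ⟨c, hc⟩ := dvd_sub_sum_teichmuller_iterateFrobeniusEquiv_coeff
    (∑ j, teichmuller p (b j) : Ainf p) M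
  refine ⟨fontaineTheta (OC p) p c, ?_⟩
  have h1 := congrArg (fontaineTheta (OC p) p) hc
  rw [map_sub, map_sum, map_sum, map_mul, map_pow, map_natCast] at h1
  have h2 : ∑ j, fontaineTheta (OC p) p (teichmuller p (b j)) = ∑ j, PreTilt.untilt (b j) :=
    Finset.sum_congr rfl (fun j _ => theta_teich p (b j))
  rw [h2] at h1
  have h3 : ∑ i ∈ Finset.Iic M, fontaineTheta (OC p) p (teichmuller p
      (((_root_.frobeniusEquiv (Flat p) p).symm ^ i)
        ((∑ j, teichmuller p (b j) : Ainf p).coeff i)) * (p : Ainf p) ^ i) =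
      ∑ i : Fin (M + 1), PreTilt.untilt (T p w M b i) := by
    rw [Finset.sum_fin_eq_sum_range]
    have hI : Finset.Iic M = Finset.range (M + 1) := by
      ext x; simp [Nat.lt_succ_iff]
    rw [hI]
    apply Finset.sum_congr rfl
    intro i hi
    rw [dif_pos (Finset.mem_range.mp hi)]
    unfold T Sc
    rw [map_mul, map_mul, map_pow, map_pow, map_natCast, theta_teich, hw, mul_comm]
  rw [h3] at h1
  rw [← h1]
  ring

end

end Pool.Agent.Helper849.TA
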