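import Pool.Agent.Helper849.TA.W1

set_option autoImplicit false

namespace Pool.Agent.Helper849.TA

open Pool.Agent.H356R3.FM MvPolynomial WittVector

variable (p : ℕ) [hp : Fact p.Prime]

theorem nf_neg (a : Flat p) : nf p (-a) = nf p a :=
  le_antisymm (nf_le_of_dvd p ((dvd_neg).mpr dvd_rfl)) (nf_le_of_dvd p ((neg_dvd).mpr dvd_rfl))

theorem nf_w (w : Flat p) (hw : PreTilt.untilt w = (p : OC p)) : nf p w = (p : ℝ)⁻¹ := by
  unfold nf
  rw [hw]
  exact norm_pC p

theorem pinv_nonneg : (0 : ℝ) ≤ (p : ℝ)⁻¹ := by positivity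

theorem pinv_le_one : (p : ℝ)⁻¹ ≤ 1 :=
  (inv_lt_one_of_one_lt₀ (by exact_mod_cast hp.out.one_lt)).le

section
variable {ι : Type} [Fintype ι]

theorem T_le (hW : TaskWitt) (w : Flat p) (M : ℕ) (b : ι → Flat p) (R : ℝ) (hR : 0 ≤ R)
    (hb : ∀ j, nf p (b j) ≤ R) (i : Fin (M + 1)) : nf p (T p w M b i) ≤ R := by
  unfold T
  rw [nf_mul]
  calc nf p (w ^ (i : ℕ)) * nf p (Sc p i b) ≤ 1 * R :=
        mul_le_mul (nf_le_one p _) (nf_Sc_le p hW i b R hR hb) (nf_nonneg p _) zero_le_one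
    _ = R := one_mul R

theorem T_small (hW : TaskWitt) (w : Flat p) (hw : PreTilt.untilt w = (p : OC p)) (M : ℕ)
    (b : ι → Flat p) (R : ℝ) (hR : 0 ≤ R)
    (hb : ∀ j, nf p (b j) ≤ R) (i : Fin (M + 1)) (hi : i ≠ 0) :
    nf p (T p w M b i) ≤ (p : ℝ)⁻¹ * R := by
  unfold T
  have hi0 : (i : ℕ) ≠ 0 := fun h => hi (Fin.ext h)
  obtain ⟨k, hk⟩ := Nat.exists_eq_succ_of_ne_zero hi0
  rw [nf_mul, hk, nf_pow, nf_w p w hw, pow_succ']
  have h1 : ((p : ℝ)⁻¹) ^ k ≤ 1 := pow_le_one₀ (pinv_nonneg p) (pinv_le_one p)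
  have h2 := nf_Sc_le p hW (k.succ) b R hR hb
  calc (p : ℝ)⁻¹ * ((p : ℝ)⁻¹) ^ k * nf p (Sc p k.succ b)
      ≤ (p : ℝ)⁻¹ * 1 * R := by
        apply mul_le_mul _ h2 (nf_nonneg p _) (by rw [mul_one]; exact pinv_nonneg p)
        exact mul_le_mul_of_nonneg_left h1 (pinv_nonneg p)
    _ = (p : ℝ)⁻¹ * R := by rw [mul_one]

end

theorem iter_small (hW : TaskWitt) (w : Flat p) (hw : PreTilt.untilt w = (p : OC p)) (M : ℕ)
    (k : ℕ) : ∀ (R : ℝ) (_ : 0 ≤ R) (b : Fin (M + 1) → Flat p), (∀ i, nf p (b i) ≤ R) →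
      (∀ i, i ≠ 0 → nf p (b i) ≤ (p : ℝ)⁻¹ * R) → ((T p w M)^[k] b) 0 = 0 →
      nf p (b 0) ≤ (p : ℝ)⁻¹ * R ∧ ∀ i, nf p ((T p w M)^[k] b i) ≤ ((p : ℝ)⁻¹) ^ (k + 1) * R := by
  induction k with
  | zero =>
    intro R hR b hb hb' h0
    have h0' : b 0 = 0 := h0
    have h1 : nf p (b 0) ≤ (p : ℝ)⁻¹ * R := by
      rw [h0', nf_zero]
      exact mul_nonneg (pinv_nonneg p) hR
    refine ⟨h1, fun i => ?_⟩
    rw [zero_add, pow_one]
    show nf p (b i) ≤ _
    by_cases hi : i = 0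
    · rw [hi]; exact h1
    · exact hb' i hi
  | succ k ih =>
    intro R hR b hb hb' h0
    rw [Function.iterate_succ_apply] at h0
    have h1 := ih R hR (T p w M b) (T_le p hW w M b R hR hb)
      (fun i hi => T_small p hW w hw M b R hR hb i hi) h0
    have h2 : nf p (∑ j, b j) ≤ (p : ℝ)⁻¹ * R := by
      rw [← T_zero p w M b]
      exact h1.1
    have h3 : nf p (b 0) ≤ (p : ℝ)⁻¹ * R := by
      have e : b 0 = (∑ j, b j) + -(∑ j : Fin M, b j.succ) := by
        rw [Fin.sum_univ_succ]; ring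
      rw [e]
      refine (nf_add p _ _).trans (max_le h2 ?_)
      rw [nf_neg]
      exact nf_sum_le p _ _ _ (mul_nonneg (pinv_nonneg p) hR)
        (fun j _ => hb' _ (Fin.succ_ne_zero j))
    have h4 : ∀ i, nf p (b i) ≤ (p : ℝ)⁻¹ * R := by
      intro i
      by_cases hi : i = 0
      · rw [hi]; exact h3
      · exact hb' i hi
    have hR' : 0 ≤ (p : ℝ)⁻¹ * R := mul_nonneg (pinv_nonneg p) hR
    have h5 := ih ((p : ℝ)⁻¹ * R) hR' (T p w M b) (T_le p hW w M b _ hR' h4)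
      (fun i hi => T_small p hW w hw M b _ hR' h4 i hi) h0
    refine ⟨h3, fun i => ?_⟩
    rw [Function.iterate_succ_apply]
    refine (h5.2 i).trans (le_of_eq ?_)
    ring

theorem iter_sum (w : Flat p) (hw : PreTilt.untilt w = (p : OC p)) (M : ℕ) (k : ℕ) :
    ∀ (b : Fin (M + 1) → Flat p), ∃ z : OC p, ∑ j, PreTilt.untilt (b j) =
      ∑ i, PreTilt.untilt ((T p w M)^[k] b i) + (p : OC p) ^ (M + 1) * z := by
  induction k with
  | zero => intro b; exact ⟨0, by simp⟩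
  | succ k ih =>
    intro b
    obtain ⟨z1, h1⟩ := sum_untilt p w hw M b
    obtain ⟨z2, h2⟩ := ih (T p w M b)
    refine ⟨z1 + z2, ?_⟩
    rw [h1, h2, Function.iterate_succ_apply]
    ring

theorem rep_step (hW : TaskWitt) (w : Flat p) (M : ℕ) {J ι : Type} [Fintype ι] (E : ℕ)
    (β : (J → Flat p) → ι → Flat p) (B : ι → MvPolynomial J (Flat p))
    (hB : ∀ i, (B i).IsHomogeneous (p ^ E))
    (he : ∀ a i, eval a (B i) = (β a i) ^ (p ^ E)) :
    ∃ B' : Fin (M + 1) → MvPolynomial J (Flat p), (∀ i, (B' i).IsHomogeneous (p ^ (E + M))) ∧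
      ∀ a i, eval a (B' i) = (T p w M (β a) i) ^ (p ^ (E + M)) := by
  choose P hP hPe using hW p ι
  refine ⟨fun i => C (w ^ ((i : ℕ) * p ^ (E + M))) * (aeval B (P i)) ^ (p ^ (M - (i : ℕ))), ?_, ?_⟩
  · intro i
    apply IsHomogeneous.C_mul
    have h1 : (aeval B (P i)).IsHomogeneous (p ^ E * p ^ (i : ℕ)) := by
      rw [aeval_def]
      refine (hP i).eval₂ _ _ (fun r => ?_) hB
      have : algebraMap ℤ (MvPolynomial J (Flat p)) r = C ((r : ℤ) : Flat p) := by simp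
      rw [this]
      exact isHomogeneous_C _ _
    have h2 := h1.pow (p ^ (M - (i : ℕ)))
    have h3 : p ^ E * p ^ (i : ℕ) * p ^ (M - (i : ℕ)) = p ^ (E + M) := by
      rw [← pow_add, ← pow_add]
      congr 1
      have := i.2
      omega
    rw [h3] at h2
    exact h2
  · intro a i
    rw [map_mul, eval_C, map_pow (eval a)]
    have h1 : eval a (aeval B (P i)) = (aeval (β a) (P i)) ^ (p ^ E) := by
      rw [map_aeval]
      have h2 : (aeval (β a) (P i)) ^ (p ^ E) = iterateFrobenius (Flat p) p E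
          (aeval (β a) (P i)) := rfl
      rw [h2, map_aeval]
      have h3 : (fun j => eval a (B j)) = fun j => iterateFrobenius (Flat p) p E (β a j) := by
        funext j
        rw [he]
        rfl
      rw [h3]
      congr 2
      exact RingHom.ext_int _ _
    rw [h1, ← hPe i (Flat p) (β a), ← Sc_pow]
    unfold T
    rw [mul_pow, ← pow_mul, ← pow_mul, ← pow_mul]
    congr 2
    rw [← pow_add, ← pow_add]
    congr 1
    have := i.2
    omega

theorem rep_iter (hW : TaskWitt) (w : Flat p) (M : ℕ) {J : Type} (k : ℕ) :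
    ∀ (E : ℕ) (β : (J → Flat p) → Fin (M + 1) → Flat p) (B : Fin (M + 1) → MvPolynomial J (Flat p))
    (_ : ∀ i, (B i).IsHomogeneous (p ^ E))
    (_ : ∀ a i, eval a (B i) = (β a i) ^ (p ^ E)),
    ∃ (E' : ℕ) (B' : Fin (M + 1) → MvPolynomial J (Flat p)),
      (∀ i, (B' i).IsHomogeneous (p ^ E')) ∧
      ∀ a i, eval a (B' i) = ((T p w M)^[k] (β a) i) ^ (p ^ E') := by
  induction k with
  | zero => intro E β B hB he; exact ⟨E, B, hB, he⟩
  | succ k ih =>
    intro E β B hB he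
    obtain ⟨B1, hB1, he1⟩ := rep_step p hW w M E β B hB he
    obtain ⟨E', B', hB', he'⟩ := ih (E + M) (fun a => T p w M (β a)) B1 hB1 he1
    exact ⟨E', B', hB', fun a i => by rw [he', Function.iterate_succ_apply]⟩

/-- The approximation statement on the unit ball. -/
theorem W_unit (hW : TaskWitt) {J : Type} [Fintype J] (N : ℕ) :
    ∃ (E : ℕ) (G : MvPolynomial J (Flat p)), G.IsHomogeneous (p ^ E) ∧
    ∀ a : J → Flat p, eval a G = 0 →
      ‖((∑ j, PreTilt.untilt (a j) : OC p) : PadicComplex p)‖ ≤ ((p : ℝ)⁻¹) ^ N := by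
  obtain ⟨w, hw⟩ := exists_untilt p (p : OC p)
  obtain ⟨B1, hB1, he1⟩ := rep_step p hW w N (J := J) (ι := J) 0 (fun a => a) (fun j => X j)
    (fun j => by rw [pow_zero]; exact isHomogeneous_X _ _)
    (fun a i => by rw [pow_zero, pow_one, eval_X])
  obtain ⟨E, B, hB, he⟩ := rep_iter p hW w N (J := J) N (0 + N) (fun a => T p w N a) B1 hB1 he1
  refine ⟨E, B 0, hB 0, fun a ha => ?_⟩
  rw [he a 0] at ha
  have h0 : ((T p w N)^[N] (T p w N a)) 0 = 0 :=
    pow_eq_zero_iff (pow_pos hp.out.pos E).ne' |>.mp ha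
  have h1 := (iter_small p hW w hw N N 1 zero_le_one (T p w N a)
    (T_le p hW w N a 1 zero_le_one (fun j => nf_le_one p _))
    (fun i hi => T_small p hW w hw N a 1 zero_le_one (fun j => nf_le_one p _) i hi) h0).2
  obtain ⟨z1, hz1⟩ := sum_untilt p w hw N a
  obtain ⟨z2, hz2⟩ := iter_sum p w hw N N (T p w N a)
  rw [hz1, hz2]
  have hpN : ((p : ℝ)⁻¹) ^ (N + 1) ≤ ((p : ℝ)⁻¹) ^ N :=
    pow_le_pow_of_le_one (pinv_nonneg p) (pinv_le_one p) (Nat.le_succ N)
  have h2 : ‖((∑ i, PreTilt.untilt ((T p w N)^[N] (T p w N a) i) : OC p) : PadicComplex p)‖ ≤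
      ((p : ℝ)⁻¹) ^ N := by
    have h3 : ∀ s : Finset (Fin (N + 1)),
        ‖((∑ i ∈ s, PreTilt.untilt ((T p w N)^[N] (T p w N a) i) : OC p) : PadicComplex p)‖ ≤
        ((p : ℝ)⁻¹) ^ N := by
      intro s
      induction s using Finset.induction_on with
      | empty => rw [Finset.sum_empty, coe_zero_OC, norm_zero]; exact pow_nonneg (pinv_nonneg p) _
      | insert i s hi ih =>
        rw [Finset.sum_insert hi, coe_add_OC]
        refine (IsUltrametricDist.norm_add_le_max _ _).trans (max_le ?_ ih)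
        have := h1 i
        rw [mul_one] at this
        exact this.trans hpN
    exact h3 Finset.univ
  have h4 : ∀ z : OC p, ‖(((p : OC p) ^ (N + 1) * z : OC p) : PadicComplex p)‖ ≤
      ((p : ℝ)⁻¹) ^ N := by
    intro z
    rw [coe_mul_OC, coe_pow_OC, norm_mul, norm_pow]
    have h5 : ‖((p : OC p) : PadicComplex p)‖ = (p : ℝ)⁻¹ := norm_pC p
    rw [h5]
    calc ((p : ℝ)⁻¹) ^ (N + 1) * ‖(z : PadicComplex p)‖ ≤ ((p : ℝ)⁻¹) ^ N * 1 :=
          mul_le_mul hpN (norm_OC_le p z) (norm_nonneg _) (pow_nonneg (pinv_nonneg p) _)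
      _ = _ := mul_one _
  rw [coe_add_OC, coe_add_OC]
  refine (IsUltrametricDist.norm_add_le_max _ _).trans (max_le ?_ (h4 z1))
  exact (IsUltrametricDist.norm_add_le_max _ _).trans (max_le h2 (h4 z2))

/-- a common factor of maximal norm -/
theorem exists_scale {J : Type} [Fintype J] (a : J → Flat p) (R : ℝ) (hR : 0 ≤ R)
    (ha : ∀ j, nf p (a j) ≤ R) :
    ∃ c : Flat p, nf p c ≤ R ∧ ∀ j, c ∣ a j := by
  by_cases hJ : Nonempty J
  · obtain ⟨j0, hj0⟩ := Finite.exists_max (fun j => nf p (a j))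
    exact ⟨a j0, ha j0, fun j => dvd_of_nf_le p _ _ (hj0 j)⟩
  · exact ⟨0, by rw [nf_zero]; exact hR, fun j => (hJ ⟨j⟩).elim⟩

theorem taskW (hW : TaskWitt) : TaskW := by
  intro p hp J _ N
  obtain ⟨E, G, hG, hGa⟩ := W_unit p hW (J := J) N
  refine ⟨E, G, hG, fun a ha R hR haR => ?_⟩
  obtain ⟨c, hcR, hc⟩ := exists_scale p a R hR haR
  by_cases hc0 : c = 0
  · have h1 : ∀ j, a j = 0 := fun j => zero_dvd_iff.mp (hc0 ▸ hc j)
    have h2 : ∑ j, PreTilt.untilt (a j) = (0 : OC p) :=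
      Finset.sum_eq_zero (fun j _ => by rw [h1 j, untilt_zero])
    rw [h2, coe_zero_OC, norm_zero]
    exact mul_nonneg (pow_nonneg (pinv_nonneg p) _) hR
  · choose a' ha' using hc
    have h1 : eval a G = c ^ (p ^ E) * eval a' G := by
      have : a = fun j => c * a' j := funext ha'
      rw [this]
      rw [eval_eq', eval_eq', Finset.mul_sum]
      apply Finset.sum_congr rfl
      intro d hd
      have hdm : ∑ i, d i = p ^ E := by
        have h1 : d.degree = p ^ E := by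
          by_contra hne
          exact (mem_support_iff.mp hd) (hG.coeff_eq_zero hne)
        rw [← h1]
        exact (Finsupp.degree_eq_sum d).symm
      have h5 : ∏ i, (c * a' i) ^ d i = c ^ (p ^ E) * ∏ i, a' i ^ d i := by
        rw [← hdm, ← Finset.prod_pow_eq_pow_sum, ← Finset.prod_mul_distrib]
        exact Finset.prod_congr rfl (fun i _ => mul_pow _ _ _)
      rw [h5]
      ring
    rw [h1] at ha
    have h2 : eval a' G = 0 := (mul_eq_zero.mp ha).resolve_left (pow_ne_zero _ hc0)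
    have h3 := hGa a' h2
    have h4 : ∑ j, PreTilt.untilt (a j) = PreTilt.untilt c * ∑ j, (PreTilt.untilt (a' j) : OC p) := by
      rw [Finset.mul_sum]
      exact Finset.sum_congr rfl (fun j _ => by rw [ha' j, map_mul])
    rw [h4, coe_mul_OC, norm_mul, mul_comm]
    exact mul_le_mul h3 hcR (norm_nonneg _) (pow_nonneg (pinv_nonneg p) _)

end Pool.Agent.Helper849.TA
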