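import Pool.Agent.Helper849.TA.Approx2
import Pool.Agent.Helper849.TA.Stmts3

set_option autoImplicit false

namespace Pool.Agent.Helper849.TA

open Pool.Agent.H356R3.FM MvPolynomial WittVector

variable (p : ℕ) [hp : Fact p.Prime]

theorem us_sum_untilt {ι : Type} (s : Finset ι) (a : ι → Flat p) :
    ((∑ j ∈ s, PreTilt.untilt (a j) : OC p) : PadicComplex p) = ∑ j ∈ s, us p (a j) := by
  classical
  induction s using Finset.induction_on with
  | empty => rw [Finset.sum_empty, Finset.sum_empty, coe_zero_OC]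
  | insert i s hi ih => rw [Finset.sum_insert hi, Finset.sum_insert hi, coe_add_OC, ih]; rfl

theorem norm_sum_le_of {ι : Type} (s : Finset ι) (z : ι → PadicComplex p) (R : ℝ) (hR : 0 ≤ R)
    (h : ∀ i ∈ s, ‖z i‖ ≤ R) : ‖∑ i ∈ s, z i‖ ≤ R := by
  classical
  induction s using Finset.induction_on with
  | empty => rw [Finset.sum_empty, norm_zero]; exact hR
  | insert i s hi ih =>
    rw [Finset.sum_insert hi]
    exact (IsUltrametricDist.norm_add_le_max _ _).trans (max_le (h i (Finset.mem_insert_self i s))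
      (ih (fun j hj => h j (Finset.mem_insert_of_mem hj))))

/-- the Teichmueller expansion of a sum of untilts -/
theorem sum_us (M : ℕ) {ι : Type} [Fintype ι] (b : ι → Flat p) :
    ‖∑ j, us p (b j) - ∑ i : Fin (M + 1), (p : PadicComplex p) ^ (i : ℕ) * us p (Sc p i b)‖ ≤
      ((p : ℝ)⁻¹) ^ (M + 1) := by
  obtain ⟨c, hc⟩ := dvd_sub_sum_teichmuller_iterateFrobeniusEquiv_coeff
    (∑ j, teichmuller p (b j) : Ainf p) M
  have h1 := congrArg (fontaineTheta (OC p) p) hc
  rw [map_sub, map_sum, map_sum, map_mul, map_pow, map_natCast] at h1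
  have h2 : ∑ j, fontaineTheta (OC p) p (teichmuller p (b j)) = ∑ j, PreTilt.untilt (b j) :=
    Finset.sum_congr rfl (fun j _ => theta_teich p (b j))
  rw [h2] at h1
  have h3 : ∑ i ∈ Finset.Iic M, fontaineTheta (OC p) p (teichmuller p
      (((_root_.frobeniusEquiv (Flat p) p).symm ^ i)
        ((∑ j, teichmuller p (b j) : Ainf p).coeff i)) * (p : Ainf p) ^ i) =
      ∑ i : Fin (M + 1), PreTilt.untilt (Sc p i b) * (p : OC p) ^ (i : ℕ) := by
    rw [Finset.sum_fin_eq_sum_range]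
    have hI : Finset.Iic M = Finset.range (M + 1) := by
      ext x; simp
    rw [hI]
    apply Finset.sum_congr rfl
    intro i hi
    rw [dif_pos (Finset.mem_range.mp hi)]
    unfold Sc
    rw [map_mul, map_pow, map_natCast, theta_teich]
  rw [h3] at h1
  have h4 := congrArg (fun x : OC p => (x : PadicComplex p)) h1
  have h5 : ∑ j, us p (b j) - ∑ i : Fin (M + 1), (p : PadicComplex p) ^ (i : ℕ) * us p (Sc p i b) =
      (p : PadicComplex p) ^ (M + 1) * ((fontaineTheta (OC p) p c : OC p) : PadicComplex p) := by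
    rw [← us_sum_untilt]
    have h6 : ∑ i : Fin (M + 1), (p : PadicComplex p) ^ (i : ℕ) * us p (Sc p i b) =
        ((∑ i : Fin (M + 1), PreTilt.untilt (Sc p i b) * (p : OC p) ^ (i : ℕ) : OC p) :
          PadicComplex p) := by
      have h7 : ∀ s : Finset (Fin (M + 1)),
          ((∑ i ∈ s, PreTilt.untilt (Sc p i b) * (p : OC p) ^ (i : ℕ) : OC p) :
          PadicComplex p) = ∑ i ∈ s, (p : PadicComplex p) ^ (i : ℕ) * us p (Sc p i b) := by
        classical
        intro s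
        induction s using Finset.induction_on with
        | empty => rw [Finset.sum_empty, Finset.sum_empty, coe_zero_OC]
        | insert i s hi ih =>
          rw [Finset.sum_insert hi, Finset.sum_insert hi, coe_add_OC, ih, coe_mul_OC, coe_pow_OC,
            mul_comm]
          rfl
      exact (h7 Finset.univ).symm
    rw [h6]
    exact h4
  rw [h5, norm_mul, norm_pow, norm_pC]
  calc ((p : ℝ)⁻¹) ^ (M + 1) * ‖((fontaineTheta (OC p) p c : OC p) : PadicComplex p)‖
      ≤ ((p : ℝ)⁻¹) ^ (M + 1) * 1 :=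
        mul_le_mul_of_nonneg_left (norm_OC_le p _) (pow_nonneg (pinv_nonneg p) _)
    _ = _ := mul_one _

section
variable {Λ : Type} [Fintype Λ] (iL : Λ → ℕ) (π : Λ → Flat p)

/-- One step of the iteration, general version. -/
noncomputable def T' {ι : Type} [Fintype ι] (b : ι → Flat p) : Λ → Flat p :=
  fun l => π l * Sc p (iL l) b

theorem T'_le {ι : Type} [Fintype ι] (b : ι → Flat p) (R : ℝ) (hR : 0 ≤ R)
    (hb : ∀ j, nf p (b j) ≤ R) (l : Λ) : nf p (T' p iL π b l) ≤ R := by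
  unfold T'
  rw [nf_mul]
  calc nf p (π l) * nf p (Sc p (iL l) b) ≤ 1 * R :=
        mul_le_mul (nf_le_one p _) (nf_Sc_le p taskWitt _ b R hR hb) (nf_nonneg p _) zero_le_one
    _ = R := one_mul R

theorem T'_small {ι : Type} [Fintype ι] (b : ι → Flat p) (R : ℝ) (hR : 0 ≤ R)
    (hb : ∀ j, nf p (b j) ≤ R) (l : Λ) (hl : nf p (π l) ≤ (p : ℝ)⁻¹) :
    nf p (T' p iL π b l) ≤ (p : ℝ)⁻¹ * R := by
  unfold T'
  rw [nf_mul]
  exact mul_le_mul hl (nf_Sc_le p taskWitt _ b R hR hb) (nf_nonneg p _) (pinv_nonneg p)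

theorem T'_o {ι : Type} [Fintype ι] (b : ι → Flat p) (o : Λ) (h1 : iL o = 0) (h2 : π o = 1) :
    T' p iL π b o = ∑ j, b j := by
  unfold T'
  rw [h1, h2, one_mul, Sc_zero]

theorem iter_small' (o : Λ) (ho1 : iL o = 0) (ho2 : π o = 1)
    (hπ : ∀ l, l ≠ o → nf p (π l) ≤ (p : ℝ)⁻¹) (k : ℕ) :
    ∀ (R : ℝ) (_ : 0 ≤ R) (b : Λ → Flat p), (∀ i, nf p (b i) ≤ R) →
      (∀ i, i ≠ o → nf p (b i) ≤ (p : ℝ)⁻¹ * R) → ((T' p iL π)^[k] b) o = 0 →
      nf p (b o) ≤ (p : ℝ)⁻¹ * R ∧ ∀ i, nf p ((T' p iL π)^[k] b i) ≤ ((p : ℝ)⁻¹) ^ (k + 1) * R := by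
  classical
  induction k with
  | zero =>
    intro R hR b hb hb' h0
    have h0' : b o = 0 := h0
    have h1 : nf p (b o) ≤ (p : ℝ)⁻¹ * R := by
      rw [h0', nf_zero]
      exact mul_nonneg (pinv_nonneg p) hR
    refine ⟨h1, fun i => ?_⟩
    rw [zero_add, pow_one]
    show nf p (b i) ≤ _
    by_cases hi : i = o
    · rw [hi]; exact h1
    · exact hb' i hi
  | succ k ih =>
    intro R hR b hb hb' h0
    rw [Function.iterate_succ_apply] at h0
    have h1 := ih R hR (T' p iL π b) (T'_le p iL π b R hR hb)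
      (fun i hi => T'_small p iL π b R hR hb i (hπ i hi)) h0
    have h2 : nf p (∑ j, b j) ≤ (p : ℝ)⁻¹ * R := by
      rw [← T'_o p iL π b o ho1 ho2]
      exact h1.1
    have h3 : nf p (b o) ≤ (p : ℝ)⁻¹ * R := by
      have e : b o = (∑ j, b j) + -(∑ j ∈ Finset.univ.erase o, b j) := by
        rw [← Finset.add_sum_erase Finset.univ b (Finset.mem_univ o)]; ring
      rw [e]
      refine (nf_add p _ _).trans (max_le h2 ?_)
      rw [nf_neg]
      exact nf_sum_le p _ _ _ (mul_nonneg (pinv_nonneg p) hR)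
        (fun j hj => hb' _ (Finset.ne_of_mem_erase hj))
    have h4 : ∀ i, nf p (b i) ≤ (p : ℝ)⁻¹ * R := by
      intro i
      by_cases hi : i = o
      · rw [hi]; exact h3
      · exact hb' i hi
    have hR' : 0 ≤ (p : ℝ)⁻¹ * R := mul_nonneg (pinv_nonneg p) hR
    have h5 := ih ((p : ℝ)⁻¹ * R) hR' (T' p iL π b) (T'_le p iL π b _ hR' h4)
      (fun i hi => T'_small p iL π b _ hR' h4 i (hπ i hi)) h0
    refine ⟨h3, fun i => ?_⟩
    rw [Function.iterate_succ_apply]
    refine (h5.2 i).trans (le_of_eq ?_)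
    ring

theorem rep_step' (R0 : Subring (Flat p)) (hπR : ∀ l, π l ∈ R0) (M : ℕ) (hM : ∀ l, iL l ≤ M)
    {J ι : Type} [Fintype ι] (E : ℕ)
    (β : (J → Flat p) → ι → Flat p) (B : ι → MvPolynomial J R0)
    (hB : ∀ i, (B i).IsHomogeneous (p ^ E))
    (he : ∀ a i, eval a (map R0.subtype (B i)) = (β a i) ^ (p ^ E)) :
    ∃ B' : Λ → MvPolynomial J R0, (∀ i, (B' i).IsHomogeneous (p ^ (E + M))) ∧
      ∀ a i, eval a (map R0.subtype (B' i)) = (T' p iL π (β a) i) ^ (p ^ (E + M)) := by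
  choose P hP hPe using taskWitt p ι
  refine ⟨fun l => C ((⟨π l, hπR l⟩ : R0) ^ (p ^ (E + M))) *
    (aeval B (P (iL l))) ^ (p ^ (M - iL l)), ?_, ?_⟩
  · intro i
    apply IsHomogeneous.C_mul
    have h1 : (aeval B (P (iL i))).IsHomogeneous (p ^ E * p ^ (iL i)) := by
      rw [aeval_def]
      refine (hP (iL i)).eval₂ _ _ (fun r => ?_) hB
      have : algebraMap ℤ (MvPolynomial J R0) r = C ((r : ℤ) : R0) := by simp
      rw [this]
      exact isHomogeneous_C _ _
    have h2 := h1.pow (p ^ (M - iL i))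
    have h3 : p ^ E * p ^ (iL i) * p ^ (M - iL i) = p ^ (E + M) := by
      rw [← pow_add, ← pow_add]
      congr 1
      have := hM i
      omega
    rw [h3] at h2
    exact h2
  · intro a i
    rw [map_mul, map_C, map_mul, eval_C, map_pow (map R0.subtype), map_pow (eval a)]
    have h1 : eval a (map R0.subtype (aeval B (P (iL i)))) =
        (aeval (β a) (P (iL i))) ^ (p ^ E) := by
      rw [map_aeval, ← RingHom.comp_apply]
      have h2 : (aeval (β a) (P (iL i))) ^ (p ^ E) = iterateFrobenius (Flat p) p E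
          (aeval (β a) (P (iL i))) := rfl
      rw [h2, map_aeval]
      have h3 : ∀ Q : MvPolynomial ι ℤ, (eval a) ((eval₂Hom ((map R0.subtype).comp
          (algebraMap ℤ (MvPolynomial J R0))) fun i => (map R0.subtype) (B i)) Q) =
          eval₂Hom ((iterateFrobenius (Flat p) p E).comp (algebraMap ℤ (Flat p)))
            (fun j => iterateFrobenius (Flat p) p E (β a j)) Q := by
        intro Q
        rw [map_eval₂Hom]
        have h4 : (fun j => eval a (map R0.subtype (B j))) =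
            fun j => iterateFrobenius (Flat p) p E (β a j) := by
          funext j
          rw [he]
          rfl
        rw [h4]
        congr 2
        exact RingHom.ext_int _ _
      exact h3 _
    rw [h1, ← hPe (iL i) (Flat p) (β a), ← Sc_pow]
    unfold T'
    rw [mul_pow, ← pow_mul, ← pow_mul]
    have h5 : p ^ iL i * (p ^ E * p ^ (M - iL i)) = p ^ (E + M) := by
      rw [← pow_add, ← pow_add]
      congr 1
      have := hM i
      omega
    rw [h5]
    rfl

theorem rep_iter' (R0 : Subring (Flat p)) (hπR : ∀ l, π l ∈ R0) (M : ℕ) (hM : ∀ l, iL l ≤ M)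
    {J : Type} (k : ℕ) :
    ∀ (E : ℕ) (β : (J → Flat p) → Λ → Flat p) (B : Λ → MvPolynomial J R0)
    (_ : ∀ i, (B i).IsHomogeneous (p ^ E))
    (_ : ∀ a i, eval a (map R0.subtype (B i)) = (β a i) ^ (p ^ E)),
    ∃ (E' : ℕ) (B' : Λ → MvPolynomial J R0),
      (∀ i, (B' i).IsHomogeneous (p ^ E')) ∧
      ∀ a i, eval a (map R0.subtype (B' i)) = ((T' p iL π)^[k] (β a) i) ^ (p ^ E') := by
  induction k with
  | zero => intro E β B hB he; exact ⟨E, B, hB, he⟩
  | succ k ih =>
    intro E β B hB he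
    obtain ⟨B1, hB1, he1⟩ := rep_step' p iL π R0 hπR M hM E β B hB he
    obtain ⟨E', B', hB', he'⟩ := ih (E + M) (fun a => T' p iL π (β a)) B1 hB1 he1
    exact ⟨E', B', hB', fun a i => by rw [he', Function.iterate_succ_apply]⟩

theorem iter_sum' (ρ : ℝ) (hρ : 0 ≤ ρ)
    (hs : ∀ b : Λ → Flat p, ‖∑ j, us p (b j) - ∑ l, us p (T' p iL π b l)‖ ≤ ρ) (k : ℕ) :
    ∀ (b : Λ → Flat p), ‖∑ j, us p (b j) - ∑ l, us p ((T' p iL π)^[k] b l)‖ ≤ ρ := by
  induction k with
  | zero => intro b; simpa using hρ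
  | succ k ih =>
    intro b
    rw [Function.iterate_succ_apply]
    have e : ∑ j, us p (b j) - ∑ l, us p ((T' p iL π)^[k] (T' p iL π b) l) =
        (∑ j, us p (b j) - ∑ l, us p (T' p iL π b l)) +
        (∑ l, us p (T' p iL π b l) - ∑ l, us p ((T' p iL π)^[k] (T' p iL π b) l)) := by ring
    rw [e]
    exact (IsUltrametricDist.norm_add_le_max _ _).trans (max_le (hs b) (ih _))

/-- approximation of the zero set of a sum, coefficients in a subring -/
theorem W_K (R0 : Subring (Flat p)) (hπR : ∀ l, π l ∈ R0) (M : ℕ) (hM : ∀ l, iL l ≤ M)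
    (o : Λ) (ho1 : iL o = 0) (ho2 : π o = 1)
    (hπ : ∀ l, l ≠ o → nf p (π l) ≤ (p : ℝ)⁻¹)
    (hs : ∀ (ι : Type) (_ : Fintype ι) (b : ι → Flat p),
      ‖∑ j, us p (b j) - ∑ l, us p (T' p iL π b l)‖ ≤ ((p : ℝ)⁻¹) ^ M)
    {J : Type} [Fintype J] :
    ∃ (E : ℕ) (G : MvPolynomial J R0), G.IsHomogeneous (p ^ E) ∧
    ∀ a : J → Flat p, eval a (map R0.subtype G) = 0 →
      ‖∑ j, us p (a j)‖ ≤ ((p : ℝ)⁻¹) ^ M := by
  obtain ⟨B1, hB1, he1⟩ := rep_step' p iL π R0 hπR M hM (J := J) (ι := J) 0 (fun a => a)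
    (fun j => MvPolynomial.X j)
    (fun j => by rw [pow_zero]; exact isHomogeneous_X _ _)
    (fun a i => by rw [pow_zero, pow_one, map_X, eval_X])
  obtain ⟨E, B, hB, he⟩ := rep_iter' p iL π R0 hπR M hM (J := J) M (0 + M)
    (fun a => T' p iL π a) B1 hB1 he1
  refine ⟨E, B o, hB o, fun a ha => ?_⟩
  rw [he a o] at ha
  have h0 : ((T' p iL π)^[M] (T' p iL π a)) o = 0 :=
    pow_eq_zero_iff (pow_pos hp.out.pos E).ne' |>.mp ha
  have h1 := (iter_small' p iL π o ho1 ho2 hπ M 1 zero_le_one (T' p iL π a)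
    (T'_le p iL π a 1 zero_le_one (fun j => nf_le_one p _))
    (fun i hi => T'_small p iL π a 1 zero_le_one (fun j => nf_le_one p _) i (hπ i hi)) h0).2
  have h2 : ‖∑ l, us p ((T' p iL π)^[M] (T' p iL π a) l)‖ ≤ ((p : ℝ)⁻¹) ^ M := by
    apply norm_sum_le_of p _ _ _ (pow_nonneg (pinv_nonneg p) _)
    intro l _
    have h3 := h1 l
    rw [mul_one] at h3
    refine h3.trans ?_
    exact pow_le_pow_of_le_one (pinv_nonneg p) (pinv_le_one p) (Nat.le_succ M)
  have h3 := iter_sum' p iL π (((p : ℝ)⁻¹) ^ M) (pow_nonneg (pinv_nonneg p) _)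
    (fun b => hs Λ inferInstance b) M (T' p iL π a)
  have h4 := hs J inferInstance a
  have e : ∑ j, us p (a j) = (∑ j, us p (a j) - ∑ l, us p (T' p iL π a l)) +
      ((∑ l, us p (T' p iL π a l) - ∑ l, us p ((T' p iL π)^[M] (T' p iL π a) l)) +
        ∑ l, us p ((T' p iL π)^[M] (T' p iL π a) l)) := by ring
  rw [e]
  refine (IsUltrametricDist.norm_add_le_max _ _).trans (max_le h4 ?_)
  exact (IsUltrametricDist.norm_add_le_max _ _).trans (max_le h3 h2)

end

end Pool.Agent.Helper849.TA
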