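import Pool.Agent.Helper849.TA.W3

set_option autoImplicit false

namespace Pool.Agent.Helper849.TA

open Pool.Agent.H356R3.FM MvPolynomial

variable (p : ℕ) [hp : Fact p.Prime]

theorem norm_us_le (a : Flat p) : ‖us p a‖ ≤ 1 := nf_le_one p a

/-- approximation of the zero set of a sum, with coefficients in the tilt of `K` -/
theorem W_K2 (hK1 : TaskK1) (K : Subfield (PadicComplex p)) (hK : IsPerfectoidSubfield p K)
    (M : ℕ) {J : Type} [Fintype J] :
    ∃ (E : ℕ) (G : MvPolynomial J (flatK p K)), G.IsHomogeneous (p ^ E) ∧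
    ∀ a : J → Flat p, eval a (map (flatK p K).subtype G) = 0 →
      ‖∑ j, us p (a j)‖ ≤ ((p : ℝ)⁻¹) ^ M := by
  classical
  have h1 : ∀ i : Fin M, ∃ (L : ℕ) (a : Fin L → Flat p), (∀ l, a l ∈ flatK p K) ∧
      (∀ l, nf p (a l) ≤ (p : ℝ)⁻¹) ∧
      ‖(p : PadicComplex p) ^ ((i : ℕ) + 1) - ∑ l, us p (a l)‖ ≤ ((p : ℝ)⁻¹) ^ M := by
    intro i
    have hn : ‖(p : PadicComplex p) ^ ((i : ℕ) + 1)‖ = ((p : ℝ)⁻¹) ^ ((i : ℕ) + 1) := by
      rw [norm_pow, norm_pC]
    obtain ⟨L, a, ha, hna, hs⟩ := hK1 p K hK ((p : PadicComplex p) ^ ((i : ℕ) + 1))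
      (pow_mem (natCast_mem K p) _)
      (by rw [hn]; exact pow_le_one₀ (pinv_nonneg p) (pinv_le_one p)) M
    refine ⟨L, a, ha, fun l => (hna l).trans ?_, hs⟩
    rw [hn]
    calc ((p : ℝ)⁻¹) ^ ((i : ℕ) + 1) ≤ ((p : ℝ)⁻¹) ^ 1 :=
          pow_le_pow_of_le_one (pinv_nonneg p) (pinv_le_one p) (Nat.succ_le_succ (Nat.zero_le _))
      _ = (p : ℝ)⁻¹ := pow_one _
  choose L a ha hna hs using h1
  let Λ := Option (Σ i : Fin M, Fin (L i))
  let iL : Λ → ℕ := fun l => Option.elim l 0 (fun s => (s.1 : ℕ) + 1)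
  let π : Λ → Flat p := fun l => Option.elim l 1 (fun s => a s.1 s.2)
  refine W_K p iL π (flatK p K) ?_ M ?_ none rfl rfl ?_ ?_
  · rintro (_ | s)
    · exact one_mem _
    · exact ha s.1 s.2
  · rintro (_ | s)
    · exact Nat.zero_le _
    · exact s.1.2
  · rintro (_ | s) hl
    · exact absurd rfl hl
    · exact hna s.1 s.2
  · intro ι _ b
    have h2 := sum_us p M b
    have h3 : ∑ l, us p (T' p iL π b l) = us p (Sc p 0 b) +
        ∑ i : Fin M, (∑ l, us p (a i l)) * us p (Sc p ((i : ℕ) + 1) b) := by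
      rw [Fintype.sum_option, Fintype.sum_sigma]
      congr 1
      · show us p (1 * Sc p 0 b) = _
        rw [one_mul]
      · apply Finset.sum_congr rfl
        intro i _
        rw [Finset.sum_mul]
        apply Finset.sum_congr rfl
        intro l _
        show us p (a i l * Sc p ((i : ℕ) + 1) b) = _
        rw [us_mul]
    have h4 : ∑ i : Fin (M + 1), (p : PadicComplex p) ^ (i : ℕ) * us p (Sc p i b) -
        ∑ l, us p (T' p iL π b l) =
        ∑ i : Fin M, ((p : PadicComplex p) ^ ((i : ℕ) + 1) - ∑ l, us p (a i l)) *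
          us p (Sc p ((i : ℕ) + 1) b) := by
      rw [h3, Fin.sum_univ_succ]
      simp only [Fin.val_zero, pow_zero, one_mul, Fin.val_succ, sub_mul, Finset.sum_sub_distrib]
      ring
    have e : ∑ j, us p (b j) - ∑ l, us p (T' p iL π b l) =
        (∑ j, us p (b j) - ∑ i : Fin (M + 1), (p : PadicComplex p) ^ (i : ℕ) * us p (Sc p i b)) +
        (∑ i : Fin (M + 1), (p : PadicComplex p) ^ (i : ℕ) * us p (Sc p i b) -
        ∑ l, us p (T' p iL π b l)) := by ring
    rw [e, h4]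
    refine (IsUltrametricDist.norm_add_le_max _ _).trans (max_le ?_ ?_)
    · exact h2.trans (pow_le_pow_of_le_one (pinv_nonneg p) (pinv_le_one p) (Nat.le_succ M))
    · apply norm_sum_le_of p _ _ _ (pow_nonneg (pinv_nonneg p) _)
      intro i _
      rw [norm_mul]
      calc ‖(p : PadicComplex p) ^ ((i : ℕ) + 1) - ∑ l, us p (a i l)‖ *
            ‖us p (Sc p ((i : ℕ) + 1) b)‖ ≤ ((p : ℝ)⁻¹) ^ M * 1 :=
            mul_le_mul (hs i) (norm_us_le p _) (norm_nonneg _) (pow_nonneg (pinv_nonneg p) _)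
        _ = _ := mul_one _

/-- Zero sets of polynomials over `K` are approximated by zero sets of polynomials over
the tilt of `K`, respecting all gradings. -/
theorem approxK (hK1 : TaskK1) (K : Subfield (PadicComplex p)) (hK : IsPerfectoidSubfield p K)
    {σ : Type} [Fintype σ] (P : MvPolynomial σ (PadicComplex p))
    (hPK : ∀ α, coeff α P ∈ K) (δ : ℝ) (hδ : 0 < δ) :
    ∃ (E : ℕ) (G : MvPolynomial σ (flatK p K)),
      (∀ (w : σ → ℕ) (d : ℕ), IsWeightedHomogeneous w P d →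
        IsWeightedHomogeneous w G (d * p ^ E)) ∧
      ∀ a : σ → Flat p, eval a (map (flatK p K).subtype G) = 0 →
        ‖eval (fun i => us p (a i)) P‖ ≤ δ := by
  classical
  have hr0 : (0 : ℝ) < (p : ℝ)⁻¹ := by
    have : (0 : ℝ) < p := by exact_mod_cast hp.out.pos
    positivity
  have hr1 : (p : ℝ)⁻¹ < 1 := inv_lt_one_of_one_lt₀ (by exact_mod_cast hp.out.one_lt)
  obtain ⟨m, hm⟩ : ∃ m : ℕ, ∀ α ∈ P.support, ‖(p : PadicComplex p) ^ m * coeff α P‖ ≤ 1 := by
    have hC : 0 < 1 + ∑ α ∈ P.support, ‖coeff α P‖ := by positivity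
    obtain ⟨m, hm⟩ := exists_pow_lt_of_lt_one (inv_pos.mpr hC) hr1
    refine ⟨m, fun α hα => ?_⟩
    rw [norm_mul, norm_pow, norm_pC]
    have h1 : ‖coeff α P‖ ≤ 1 + ∑ α ∈ P.support, ‖coeff α P‖ := by
      have := Finset.single_le_sum (f := fun α => ‖coeff α P‖) (fun i _ => norm_nonneg _) hα
      linarith
    calc ((p : ℝ)⁻¹) ^ m * ‖coeff α P‖ ≤ (1 + ∑ α ∈ P.support, ‖coeff α P‖)⁻¹ *
          (1 + ∑ α ∈ P.support, ‖coeff α P‖) :=
          mul_le_mul hm.le h1 (norm_nonneg _) (inv_pos.mpr hC).le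
      _ = 1 := inv_mul_cancel₀ hC.ne'
  obtain ⟨N, hN⟩ := exists_pow_lt_of_lt_one (mul_pos hδ (pow_pos hr0 m)) hr1
  have hch : ∀ α : P.support, ∃ (L : ℕ) (c : Fin L → Flat p), (∀ l, c l ∈ flatK p K) ∧
      ‖(p : PadicComplex p) ^ m * coeff α.1 P - ∑ l, us p (c l)‖ ≤ ((p : ℝ)⁻¹) ^ N := by
    intro α
    obtain ⟨L, c, h1, -, h3⟩ := hK1 p K hK ((p : PadicComplex p) ^ m * coeff α.1 P)
      (mul_mem (pow_mem (natCast_mem K p) _) (hPK α.1)) (hm α.1 α.2) N
    exact ⟨L, c, h1, h3⟩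
  choose L c hc hs using hch
  obtain ⟨E, G0, hG0, hG0a⟩ := W_K2 p hK1 K hK N (J := Σ α : P.support, Fin (L α))
  refine ⟨E, bind₁ (fun s : (Σ α : P.support, Fin (L α)) =>
    monomial s.1.1 (⟨c s.1 s.2, hc s.1 s.2⟩ : flatK p K)) G0, ?_, ?_⟩
  · intro w d hP
    refine Pool.Agent.H293R3.TA.taskSubst (flatK p K) σ _ w d (p ^ E) G0 hG0 _ (fun s => ?_)
    exact isWeightedHomogeneous_monomial w s.1.1 _ (hP (mem_support_iff.mp s.1.2))
  · intro a ha
    have h0 : eval a (map (flatK p K).subtype (bind₁ (fun s : (Σ α : P.support, Fin (L α)) =>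
        monomial s.1.1 (⟨c s.1 s.2, hc s.1 s.2⟩ : flatK p K)) G0)) =
        eval (fun s : (Σ α : P.support, Fin (L α)) => eval a (monomial s.1.1 (c s.1 s.2)))
          (map (flatK p K).subtype G0) := by
      rw [map_bind₁, eval_bind₁']
      congr 2
      funext s
      rw [map_monomial]
      rfl
    rw [h0] at ha
    have h1 := hG0a _ ha
    have hmon : ∀ α : σ →₀ ℕ, ‖∏ i, us p (a i) ^ α i‖ ≤ 1 := by
      intro α
      rw [norm_prod]
      exact Finset.prod_le_one (fun i _ => norm_nonneg _)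
        (fun i _ => by rw [norm_pow]; exact pow_le_one₀ (norm_nonneg _) (norm_us_le p _))
    have h2 : ∑ s : (Σ α : P.support, Fin (L α)), us p (eval a (monomial s.1.1 (c s.1 s.2))) =
        ∑ α : P.support, (∑ l, us p (c α l)) * ∏ i, us p (a i) ^ α.1 i := by
      rw [Fintype.sum_sigma]
      apply Finset.sum_congr rfl
      intro α _
      rw [Finset.sum_mul]
      apply Finset.sum_congr rfl
      intro l _
      show us p (eval a (monomial α.1 (c α l))) = _
      rw [eval_monomial, us_mul, Finsupp.prod_fintype]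
      · congr 1
        have h4 : ∀ s : Finset σ, us p (∏ i ∈ s, a i ^ α.1 i) = ∏ i ∈ s, us p (a i) ^ α.1 i := by
          intro s
          induction s using Finset.induction_on with
          | empty => rw [Finset.prod_empty, Finset.prod_empty, us_one]
          | insert i s hi ih => rw [Finset.prod_insert hi, Finset.prod_insert hi, us_mul, us_pow, ih]
        exact h4 Finset.univ
      · intro i; rw [pow_zero]
    have h3 : (p : PadicComplex p) ^ m * eval (fun i => us p (a i)) P =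
        ∑ α : P.support, ((p : PadicComplex p) ^ m * coeff α.1 P) * ∏ i, us p (a i) ^ α.1 i := by
      rw [eval_eq', Finset.mul_sum, ← Finset.sum_coe_sort P.support]
      apply Finset.sum_congr rfl
      intro α _
      ring
    have h5 : ‖(p : PadicComplex p) ^ m * eval (fun i => us p (a i)) P‖ ≤ ((p : ℝ)⁻¹) ^ N := by
      have e : (p : PadicComplex p) ^ m * eval (fun i => us p (a i)) P =
          ∑ α : P.support, ((p : PadicComplex p) ^ m * coeff α.1 P - ∑ l, us p (c α l)) *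
            ∏ i, us p (a i) ^ α.1 i +
          ∑ s : (Σ α : P.support, Fin (L α)), us p (eval a (monomial s.1.1 (c s.1 s.2))) := by
        rw [h3, h2, ← Finset.sum_add_distrib]
        apply Finset.sum_congr rfl
        intro α _
        ring
      rw [e]
      refine (IsUltrametricDist.norm_add_le_max _ _).trans (max_le ?_ h1)
      apply norm_sum_le_of p _ _ _ (pow_nonneg (pinv_nonneg p) _)
      intro α _
      rw [norm_mul]
      calc _ ≤ ((p : ℝ)⁻¹) ^ N * 1 :=
            mul_le_mul (hs α) (hmon α.1) (norm_nonneg _) (pow_nonneg (pinv_nonneg p) _)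
        _ = _ := mul_one _
    rw [norm_mul, norm_pow, norm_pC] at h5
    have h6 : ((p : ℝ)⁻¹) ^ m * ‖eval (fun i => us p (a i)) P‖ ≤ ((p : ℝ)⁻¹) ^ m * δ := by
      refine h5.trans (hN.le.trans (le_of_eq ?_))
      ring
    exact le_of_mul_le_mul_left h6 (pow_pos hr0 m)

end Pool.Agent.Helper849.TA
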